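import Pool.Agent.T9h31.NA.Wedge

/-!
# Regular top forms at a prime of height one

`O` is an integrally closed subring of the field `F` (the local ring), `T` and the `W_j` are units
of `O`, the `U_i` are elements of `O` of which at most one is not a unit, `W_j` is an affine linear
combination of the `U_i`. If `x_l^3` are monomials in `T`, `U`, `W`, then
`dx_1 ∧ … ∧ dx_d` is in `O ω_0`, `ω_0 = Φ dlog T ∧ ⋀ dlog U_i`, `Φ^3 = T ∏ U_i / ∏ W_j^2`.
-/

set_option linter.unusedSectionVars false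

namespace Pool.Agent.T9h31.NA

section units

variable {F : Type*} [Field F] (O : Subring F)

theorem det_mem {ι : Type*} [DecidableEq ι] [Fintype ι] (A : Matrix ι ι F)
    (hA : ∀ i j, A i j ∈ O) : A.det ∈ O := by
  rw [Matrix.det_apply]
  refine Subring.sum_mem _ fun σ _ => ?_
  rw [Units.smul_def]
  exact Subring.zsmul_mem _ (Subring.prod_mem _ fun i _ => hA _ _) _

theorem inv_prod_mem {ι : Type*} (s : Finset ι) (x : ι → F) (hx : ∀ i ∈ s, (x i)⁻¹ ∈ O) :
    (∏ i ∈ s, x i)⁻¹ ∈ O := by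
  rw [← Finset.prod_inv_distrib]
  exact Subring.prod_mem _ hx

end units

/-- The basis of logarithmic forms. -/
noncomputable def etaF {K F : Type*} [Field K] [Field F] [Algebra K F] {Mod : Type*}
    [AddCommGroup Mod] [Module F Mod] [Module K Mod] [IsScalarTower K F Mod]
    (D : Derivation K F Mod) {I : Type*} (T : F) (U : I → F) : Option I → Mod
  | none => dlog D T
  | some i => dlog D (U i)

variable {K F : Type*} [Field K] [Field F] [Algebra K F] {Mod N : Type*}
  [AddCommGroup Mod] [Module F Mod] [Module K Mod] [IsScalarTower K F Mod] [AddCommGroup N]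
  [Module F N] (D : Derivation K F Mod)

theorem dlog_lin {I J : Type*} [Fintype I] [Fintype J] (U : I → F) (hU0 : ∀ i, U i ≠ 0)
    (W : J → F) (a0 : J → K) (a : J → I → K)
    (hlin : ∀ j, W j = algebraMap K F (a0 j) + ∑ i, algebraMap K F (a j i) * U i) (j : J) :
    dlog D (W j) = ∑ i, ((W j)⁻¹ * algebraMap K F (a j i) * U i) • dlog D (U i) := by
  have h1 : D (W j) = ∑ i, (algebraMap K F (a j i)) • D (U i) := by
    rw [hlin j, map_add, D.map_algebraMap, zero_add, map_sum]
    refine Finset.sum_congr rfl fun i _ => ?_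
    rw [D.leibniz, D.map_algebraMap, smul_zero, add_zero]
  rw [dlog, h1, Finset.smul_sum]
  refine Finset.sum_congr rfl fun i _ => ?_
  rw [mul_smul, mul_smul, smul_dlog D (hU0 i)]

/-- The row of the exponents of a monomial. -/
noncomputable def row {I J : Type*} [Fintype J] (U : I → F) (W : J → F) (a : J → I → K)
    (n : ℕ) (m : I → ℕ) (k : J → ℕ) : Option I → F
  | none => n
  | some i => m i + U i * ∑ j, k j * (W j)⁻¹ * algebraMap K F (a j i)

theorem D_monomial {I J : Type*} [Fintype I] [Fintype J] (h3 : (3 : F) ≠ 0)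
    (T : F) (hT0 : T ≠ 0) (U : I → F) (hU0 : ∀ i, U i ≠ 0)
    (W : J → F) (hW0 : ∀ j, W j ≠ 0) (a0 : J → K) (a : J → I → K)
    (hlin : ∀ j, W j = algebraMap K F (a0 j) + ∑ i, algebraMap K F (a j i) * U i)
    (x : F) (n : ℕ) (m : I → ℕ) (k : J → ℕ)
    (hx : x ^ 3 = T ^ n * (∏ i, U i ^ m i) * ∏ j, W j ^ k j) :
    D x = (x / 3) • ∑ o, row U W a n m k o • etaF D T U o := by
  have hP1 : (∏ i, U i ^ m i) ≠ 0 := Finset.prod_ne_zero_iff.2 fun i _ => pow_ne_zero _ (hU0 i)
  have hP2 : (∏ j, W j ^ k j) ≠ 0 := Finset.prod_ne_zero_iff.2 fun i _ => pow_ne_zero _ (hW0 i)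
  have hx0 : x ≠ 0 := by
    rintro rfl
    rw [zero_pow (by norm_num)] at hx
    exact mul_ne_zero (mul_ne_zero (pow_ne_zero _ hT0) hP1) hP2 hx.symm
  have h1 : (3 : F) • dlog D x = ∑ o, row U W a n m k o • etaF D T U o := by
    have h2 := dlog_pow D hx0 3
    rw [hx, dlog_mul D (mul_ne_zero (pow_ne_zero _ hT0) hP1) hP2,
      dlog_mul D (pow_ne_zero _ hT0) hP1, dlog_pow D hT0,
      dlog_prod D _ _ (fun i _ => pow_ne_zero _ (hU0 i)),
      dlog_prod D _ _ (fun i _ => pow_ne_zero _ (hW0 i))] at h2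
    rw [Nat.cast_ofNat] at h2
    rw [← h2, Fintype.sum_option, add_assoc]
    congr 1
    simp only [dlog_pow D (hU0 _), dlog_pow D (hW0 _), dlog_lin D U hU0 W a0 a hlin,
      Finset.smul_sum]
    rw [Finset.sum_comm, ← Finset.sum_add_distrib]
    refine Finset.sum_congr rfl fun i _ => ?_
    simp only [row, etaF, smul_smul]
    rw [← Finset.sum_smul, ← add_smul, Finset.mul_sum]
    congr 2
    refine Finset.sum_congr rfl fun j _ => ?_
    ring
  rw [← h1, smul_smul, div_mul_cancel₀ _ h3, smul_dlog D hx0]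

theorem height_one {ι : Type*} [DecidableEq ι] [Fintype ι] (f : Mod [⋀^ι]→ₗ[F] N)
    {I J : Type*} [Fintype I] [Fintype J] [DecidableEq I] (e : ι ≃ Option I)
    (h3 : (3 : F) ≠ 0)
    (O : Subring F) (hK : ∀ c : K, algebraMap K F c ∈ O) (hcube : ∀ x : F, x ^ 3 ∈ O → x ∈ O)
    (T : F) (hT0 : T ≠ 0) (hT : T ∈ O) (hT' : T⁻¹ ∈ O)
    (U : I → F) (hU0 : ∀ i, U i ≠ 0) (hU : ∀ i, U i ∈ O)
    (hstar : ∀ i i', i ≠ i' → (U i)⁻¹ ∈ O ∨ (U i')⁻¹ ∈ O)
    (W : J → F) (hW0 : ∀ j, W j ≠ 0) (hW : ∀ j, W j ∈ O) (hW' : ∀ j, (W j)⁻¹ ∈ O)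
    (a0 : J → K) (a : J → I → K)
    (hlin : ∀ j, W j = algebraMap K F (a0 j) + ∑ i, algebraMap K F (a j i) * U i)
    (Φ : F) (hΦ : Φ ^ 3 = T * (∏ i, U i) / (∏ j, W j) ^ 2)
    (x : ι → F) (hx : ∀ l, x l ∈ O) (hx3 : ∀ l, ∃ (n : ℕ) (m : I → ℕ) (k : J → ℕ),
      x l ^ 3 = T ^ n * (∏ i, U i ^ m i) * ∏ j, W j ^ k j) :
    f (fun l => D (x l)) ∈ Submodule.span O {Φ • f (fun l => etaF D T U (e l))} := by
  choose n m k hx3 using hx3
  have hPW0 : (∏ j, W j) ≠ 0 := Finset.prod_ne_zero_iff.2 fun j _ => hW0 j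
  have hPU0 : (∏ i, U i) ≠ 0 := Finset.prod_ne_zero_iff.2 fun j _ => hU0 j
  have hΦ0 : Φ ≠ 0 := by
    rintro rfl
    rw [zero_pow (by norm_num)] at hΦ
    exact (div_ne_zero (mul_ne_zero hT0 hPU0) (pow_ne_zero 2 hPW0)) hΦ.symm
  have h3' : (3 : F)⁻¹ ∈ O := by
    have := hK (3 : K)⁻¹
    rwa [map_inv₀, map_ofNat] at this
  -- the matrix
  set A : Matrix ι ι F := Matrix.of fun l l' => row U W a (n l) (m l) (k l) (e l') with hA
  have hsum : ∀ l, ∑ o, row U W a (n l) (m l) (k l) o • etaF D T U o =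
      ∑ l', A l l' • etaF D T U (e l') := by
    intro l
    rw [← e.sum_comp]
    rfl
  have hf : f (fun l => D (x l)) = ((∏ l, x l / 3) * A.det) • f (fun l => etaF D T U (e l)) := by
    have h1 : (fun l => D (x l)) = fun l => (x l / 3) • ∑ l', A l l' • etaF D T U (e l') := by
      funext l
      rw [D_monomial D h3 T hT0 U hU0 W hW0 a0 a hlin (x l) (n l) (m l) (k l) (hx3 l), hsum]
    rw [h1, f.map_smul_univ, map_matrix, smul_smul]
  have hg : ∀ l i, (∑ j, (k l j : F) * (W j)⁻¹ * algebraMap K F (a j i)) ∈ O := fun l i =>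
    Subring.sum_mem _ fun j _ => O.mul_mem (O.mul_mem (natCast_mem O _) (hW' j)) (hK _)
  have hAO : ∀ l l', A l l' ∈ O := by
    intro l l'
    rw [hA, Matrix.of_apply]
    cases e l' with
    | none => exact natCast_mem O _
    | some i => exact O.add_mem (natCast_mem O _) (O.mul_mem (hU i) (hg l i))
  -- it suffices that the coefficient divided by `Φ` is in `O`
  suffices hc : (∏ l, x l / 3) * A.det / Φ ∈ O by
    rw [hf]
    have h1 : ((∏ l, x l / 3) * A.det) • f (fun l => etaF D T U (e l)) =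
        (⟨_, hc⟩ : O) • (Φ • f (fun l => etaF D T U (e l))) := by
      change _ = ((∏ l, x l / 3) * A.det / Φ) • (Φ • f (fun l => etaF D T U (e l)))
      rw [smul_smul, div_mul_cancel₀ _ hΦ0]
    rw [h1]
    exact Submodule.smul_mem _ _ (Submodule.mem_span_singleton_self _)
  have hx3O : ∀ l, x l / 3 ∈ O := fun l => by
    rw [div_eq_mul_inv]; exact O.mul_mem (hx l) h3'
  by_cases hall : ∀ i, (U i)⁻¹ ∈ O
  · have h1 : Φ⁻¹ ∈ O := by
      apply hcube
      rw [inv_pow, hΦ, inv_div, div_eq_mul_inv, mul_inv]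
      exact O.mul_mem (O.pow_mem (Subring.prod_mem _ fun j _ => hW j) 2)
        (O.mul_mem hT' (inv_prod_mem O _ _ fun i _ => hall i))
    rw [div_eq_mul_inv]
    exact O.mul_mem (O.mul_mem (Subring.prod_mem _ fun l _ => hx3O l) (det_mem O A hAO)) h1
  · push Not at hall
    obtain ⟨i0, hi0⟩ := hall
    have hoth : ∀ i ≠ i0, (U i)⁻¹ ∈ O := fun i hi =>
      (hstar i i0 hi).resolve_right hi0
    -- `u = Φ^3 / U_{i0}`
    set u : F := T * (∏ i ∈ Finset.univ.erase i0, U i) / (∏ j, W j) ^ 2 with hu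
    have hΦu : Φ ^ 3 = u * U i0 := by
      rw [hΦ, hu, ← Finset.mul_prod_erase _ _ (Finset.mem_univ i0)]
      ring
    have hu' : u⁻¹ ∈ O := by
      rw [hu, inv_div, div_eq_mul_inv, mul_inv]
      exact O.mul_mem (O.pow_mem (Subring.prod_mem _ fun j _ => hW j) 2)
        (O.mul_mem hT' (inv_prod_mem O _ _ fun i hi => hoth i (Finset.ne_of_mem_erase hi)))
    have hu0 : u ≠ 0 := by
      intro h0
      rw [h0, zero_mul] at hΦu
      exact hΦ0 (pow_eq_zero_iff (by norm_num) |>.1 hΦu)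
    by_cases hm : ∃ l, m l i0 ≠ 0
    · obtain ⟨l, hl⟩ := hm
      have h1 : x l / Φ ∈ O := by
        apply hcube
        rw [div_pow, hx3 l, hΦu]
        have h2 : T ^ n l * (∏ i, U i ^ m l i) * (∏ j, W j ^ k l j) / (u * U i0) =
            u⁻¹ * T ^ n l * (U i0 ^ (m l i0 - 1) *
              ∏ i ∈ Finset.univ.erase i0, U i ^ m l i) * (∏ j, W j ^ k l j) := by
          rw [← Finset.mul_prod_erase _ (fun i => U i ^ m l i) (Finset.mem_univ i0)]
          have h4 : U i0 ^ m l i0 = U i0 ^ (m l i0 - 1) * U i0 := by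
            rw [← pow_succ]; congr 1; omega
          rw [h4]
          have := hU0 i0
          field_simp
        rw [h2]
        exact O.mul_mem (O.mul_mem (O.mul_mem hu' (O.pow_mem hT _)) (O.mul_mem
          (O.pow_mem (hU _) _) (Subring.prod_mem _ fun i _ => O.pow_mem (hU i) _)))
          (Subring.prod_mem _ fun j _ => O.pow_mem (hW j) _)
      rw [← Finset.mul_prod_erase _ _ (Finset.mem_univ l)]
      have h2 : x l / 3 * (∏ l ∈ Finset.univ.erase l, x l / 3) * A.det / Φ =
          (x l / Φ) * (3⁻¹ * (∏ l ∈ Finset.univ.erase l, x l / 3) * A.det) := by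
        field_simp
      rw [h2]
      exact O.mul_mem h1 (O.mul_mem (O.mul_mem h3' (Subring.prod_mem _ fun l _ => hx3O l))
        (det_mem O A hAO))
    · push Not at hm
      have h1 : U i0 / Φ ∈ O := by
        apply hcube
        rw [div_pow, hΦu]
        have h2 : U i0 ^ 3 / (u * U i0) = u⁻¹ * U i0 ^ 2 := by
          have := hU0 i0
          field_simp
        rw [h2]
        exact O.mul_mem hu' (O.pow_mem (hU _) _)
      set A' : Matrix ι ι F := A.updateCol (e.symm (some i0))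
        (fun l => ∑ j, (k l j : F) * (W j)⁻¹ * algebraMap K F (a j i0)) with hA'
      have h2 : A.det = U i0 * A'.det := by
        rw [hA', ← Matrix.det_updateCol_smul]
        congr 1
        ext l l'
        rw [Matrix.updateCol_apply]
        split_ifs with h
        · subst h
          rw [hA, Matrix.of_apply, Equiv.apply_symm_apply]
          simp only [row, hm l, Nat.cast_zero, zero_add, Pi.smul_apply, smul_eq_mul]
        · rfl
      have h4 : ∀ l l', A' l l' ∈ O := by
        intro l l'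
        rw [hA', Matrix.updateCol_apply]
        split_ifs with h
        · exact hg l i0
        · exact hAO l l'
      rw [h2]
      have h5 : (∏ l, x l / 3) * (U i0 * A'.det) / Φ =
          (∏ l, x l / 3) * (U i0 / Φ * A'.det) := by ring
      rw [h5]
      exact O.mul_mem (Subring.prod_mem _ fun l _ => hx3O l) (O.mul_mem h1 (det_mem O A' h4))

end Pool.Agent.T9h31.NA
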