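import Pool.Agent.T9h22.RS.Defs
import Pool.Agent.T9h31.NA.HtOne

/-!
# Step (C) for an abstract local ring `O` in a field `F`
-/

set_option linter.unusedSectionVars false

namespace Pool.Agent.T9h31.NA

open KaehlerDifferential

variable {K F S : Type*} [Field K] [Field F] [Algebra K F] [AddCommGroup S] [Module K S]

/-- Differentials of the elements of `O`, where `O` consists of quotients of elements of `φ(S)` and
`S` is spanned by `G` over `K`. -/
theorem D_mem_F (O : Subring F) (hK : ∀ c : K, algebraMap K F c ∈ O) (φ : S →ₗ[K] F)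
    (hfrac : ∀ x ∈ O, ∃ a s : S, φ s ≠ 0 ∧ (φ s)⁻¹ ∈ O ∧ x * φ s = φ a)
    (G : Set S) (hG : ∀ s : S, s ∈ Submodule.span K G) (x : F) (hx : x ∈ O) :
    D K F x ∈ Submodule.span O {ω | ∃ y ∈ G, ω = D K F (φ y)} := by
  have key : ∀ s : S, D K F (φ s) ∈ Submodule.span O {ω | ∃ y ∈ G, ω = D K F (φ y)} := by
    intro s
    refine Submodule.span_induction (p := fun s _ => D K F (φ s) ∈
      Submodule.span O {ω | ∃ y ∈ G, ω = D K F (φ y)}) ?_ ?_ ?_ ?_ (hG s)
    · intro s hs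
      exact Submodule.subset_span ⟨s, hs, rfl⟩
    · rw [map_zero, map_zero]
      exact Submodule.zero_mem _
    · intro x y _ _ hx hy
      rw [map_add, map_add]
      exact Submodule.add_mem _ hx hy
    · intro c x _ hx
      rw [map_smul, Derivation.map_smul]
      have h1 : ∀ ω : Ω[F⁄K], c • ω = (⟨algebraMap K F c, hK c⟩ : O) • ω := by
        intro ω
        change c • ω = algebraMap K F c • ω
        rw [algebraMap_smul]
      rw [h1]
      exact Submodule.smul_mem _ _ hx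
  obtain ⟨a, s, hs0, hsi, hxs⟩ := hfrac x hx
  have h2 : x • D K F (φ s) + φ s • D K F x = D K F (φ a) := by
    rw [← (D K F).leibniz, hxs]
  have h3 : D K F x = (φ s)⁻¹ • (D K F (φ a) - x • D K F (φ s)) := by
    rw [← h2, add_sub_cancel_left, smul_smul, inv_mul_cancel₀ hs0, one_smul]
  rw [h3]
  exact Submodule.smul_mem _ (⟨_, hsi⟩ : O)
    (Submodule.sub_mem _ (key a) (Submodule.smul_mem _ (⟨x, hx⟩ : O) (key s)))

/-- `dlog T`, `dU_i`. -/
noncomputable def famA {I : Type*} (T : F) (U : I → F) : Option I → Ω[F⁄K]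
  | none => T⁻¹ • D K F T
  | some i => D K F (U i)

theorem famA_eq {I : Type*} [Fintype I] (T : F) (U : I → F)
    (hU0 : ∀ i, U i ≠ 0) (Ψ : F) {d : ℕ} (q : Fin d ≃ Option I) :
    Ψ • exteriorPower.ιMulti F d (fun i => famA (K := K) T U (q i)) =
      (Ψ * ∏ i, U i) • exteriorPower.ιMulti F d (fun i => etaF (D K F) T U (q i)) := by
  set g : Option I → F := fun o => o.elim 1 U with hg
  have h1 : (fun i => famA (K := K) T U (q i)) = fun i => g (q i) • etaF (D K F) T U (q i) := by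
    funext i
    cases q i with
    | none => simp only [hg, Option.elim_none, famA, etaF, dlog, one_smul]
    | some p =>
      simp only [hg, Option.elim_some, famA, etaF]
      rw [smul_dlog _ (hU0 _)]
  have h2 : ∏ i, g (q i) = ∏ i, U i := by
    rw [q.prod_comp g, Fintype.prod_option, hg]
    simp only [Option.elim_none, Option.elim_some, one_mul]
  rw [h1, AlternatingMap.map_smul_univ, h2, smul_smul]

theorem core_F (h3 : (3 : K) ≠ 0) (O : Subring F) (hK : ∀ c : K, algebraMap K F c ∈ O)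
    (hcube : ∀ x : F, x ^ 3 ∈ O → x ∈ O) (φ : S →ₗ[K] F) (hφ : ∀ s, φ s ∈ O)
    (hfrac : ∀ x ∈ O, ∃ a s : S, φ s ≠ 0 ∧ (φ s)⁻¹ ∈ O ∧ x * φ s = φ a)
    {d : ℕ} {I J : Type*} [Fintype I] [Fintype J] [DecidableEq I]
    (q : Fin d ≃ Option I) (G : Set S) (hG : ∀ s : S, s ∈ Submodule.span K G)
    (T : F) (hT0 : T ≠ 0) (hT : T ∈ O) (hT' : T⁻¹ ∈ O)
    (U : I → F) (hU0 : ∀ i, U i ≠ 0) (hU : ∀ i, U i ∈ O)
    (hstar : ∀ i i', i ≠ i' → (U i)⁻¹ ∈ O ∨ (U i')⁻¹ ∈ O)
    (W : J → F) (hW0 : ∀ j, W j ≠ 0) (hW : ∀ j, W j ∈ O)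
    (hW' : ∀ j, (W j)⁻¹ ∈ O) (a0 : J → K) (a : J → I → K)
    (hlin : ∀ j, W j = algebraMap K F (a0 j) + ∑ i, algebraMap K F (a j i) * U i)
    (Ψ : F) (hΨ : Ψ ^ 3 = T / ((∏ i, U i) * ∏ j, W j) ^ 2)
    (hmon : ∀ y ∈ G, ∃ (n : ℕ) (m : I → ℕ) (k : J → ℕ),
      φ y ^ 3 = T ^ n * (∏ i, U i ^ m i) * ∏ j, W j ^ k j)
    (x : Fin d → F) (hx : ∀ i, x i ∈ O) :
    ∃ g ∈ O, exteriorPower.ιMulti F d (fun i => D K F (x i)) =
      g • (Ψ • exteriorPower.ιMulti F d (fun i => famA (K := K) T U (q i))) := by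
  have hPW0 : (∏ j, W j) ≠ 0 := Finset.prod_ne_zero_iff.2 fun j _ => hW0 _
  have hPU0 : (∏ i, U i) ≠ 0 := Finset.prod_ne_zero_iff.2 fun j _ => hU0 _
  set Φ : F := Ψ * ∏ i, U i with hΦ
  have hΦ3 : Φ ^ 3 = T * (∏ i, U i) / (∏ j, W j) ^ 2 := by
    rw [hΦ, mul_pow, hΨ]
    field_simp
  have h3' : (3 : F) ≠ 0 := by
    intro h0
    apply h3
    apply (algebraMap K F).injective
    rw [map_ofNat, map_zero, h0]
  have hmem := map_mem_span O (exteriorPower.ιMulti F d) _ (fun i => D K F (x i))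
    (fun i => D_mem_F O hK φ hfrac G hG (x i) (hx i))
  have hle : Submodule.span O {y | ∃ g : Fin d → Ω[F⁄K],
      (∀ i, g i ∈ {ω | ∃ y ∈ G, ω = D K F (φ y)}) ∧
      y = exteriorPower.ιMulti F d g} ≤
      Submodule.span O {Φ • exteriorPower.ιMulti F d (fun i => etaF (D K F) T U (q i))} := by
    rw [Submodule.span_le]
    rintro _ ⟨g, hg, rfl⟩
    choose y hy hgy using hg
    have hgf : g = fun i => D K F (φ (y i)) := funext hgy
    rw [SetLike.mem_coe, hgf]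
    exact height_one (D K F) (exteriorPower.ιMulti F d) q h3' O hK hcube T hT0 hT hT' U hU0 hU
      hstar W hW0 hW hW' a0 a hlin Φ hΦ3 _ (fun l => hφ _) (fun l => hmon _ (hy l))
  obtain ⟨g, hg⟩ := Submodule.mem_span_singleton.1 (hle hmem)
  refine ⟨g, g.2, ?_⟩
  rw [famA_eq T U hU0 Ψ q, ← hg]
  rfl

end Pool.Agent.T9h31.NA
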