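import Pool.Agent.T9h31.NA.StepC
import Pool.Agent.T9h31.NA.Abs

/-!
# MP_954e53_ag.NegativeAnswer, rational singularities, step (C): the theorem
-/

set_option linter.unusedSectionVars false

namespace Pool.Agent.T9h31.NA

open MvPolynomial KaehlerDifferential Pool.Agent.T9h29.NA Pool.Agent.T9h22.RS

universe u

variable {K : Type u} [Field K] {B : Type} [Fintype B]
  [DecidableEq B] {ι : B → Type} [∀ b, Fintype (ι b)] [∀ b, DecidableEq (ι b)] {r e : B → ℕ}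
  (M : ∀ b, Matrix (Fin (r b)) (ι b) K) {A : Type*} [AddCommGroup A] (w : Var ι → A)

/-! ### Differentials of elements of `S` -/

open scoped Classical in
/-- The monomials of `S_n` (`0` for the other exponents). -/
noncomputable def monS (n : ℕ) (m : Var ι →₀ ℕ) : Stot M w :=
  if h : m ∈ Good w n then ⟨mon M m, mon_mem M w h⟩ else 0

theorem monS_coe {n : ℕ} {m : Var ι →₀ ℕ} (h : m ∈ Good w n) :
    ((monS M w n m : Stot M w) : Rg M) = mon M m := by
  rw [monS, dif_pos h]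

theorem grS_le_span (n : ℕ) :
    grS M w n ≤ Submodule.span K {y | ∃ n, ∃ m, ∃ hm : m ∈ Good w n,
      y = (⟨mon M m, mon_mem M w hm⟩ : Stot M w)} := by
  intro x hx
  obtain ⟨f, hf, hfx⟩ := hx
  rw [SetLike.mem_coe, mem_restrictSupport_iff] at hf
  have hx' : x = ∑ m ∈ f.support, coeff m f • monS M w n m := by
    apply Subtype.ext
    have h1 : (x : Rg M) = Ideal.Quotient.mkₐ K (idl M) f := hfx.symm
    have h2 : ((∑ m ∈ f.support, coeff m f • monS M w n m : Stot M w) : Rg M) =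
        ∑ m ∈ f.support, coeff m f • ((monS M w n m : Stot M w) : Rg M) := by
      rw [← Subalgebra.coe_val, map_sum]
      exact Finset.sum_congr rfl fun m _ => map_smul _ _ _
    rw [h1, h2]
    conv_lhs => rw [f.as_sum, map_sum]
    refine Finset.sum_congr rfl fun m hm => ?_
    rw [monS_coe M w (hf m (mem_support_iff.1 hm)), mon, ← Ideal.Quotient.mkₐ_eq_mk K, ← map_smul,
      smul_monomial, smul_eq_mul, mul_one]
  rw [hx']
  refine Submodule.sum_mem _ fun m hm => Submodule.smul_mem _ _ (Submodule.subset_span ?_)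
  have h := hf m (mem_support_iff.1 hm)
  exact ⟨n, m, h, by rw [monS, dif_pos h]⟩

theorem mem_span_mon (s : Stot M w) :
    s ∈ Submodule.span K {y | ∃ n, ∃ m, ∃ hm : m ∈ Good w n,
      y = (⟨mon M m, mon_mem M w hm⟩ : Stot M w)} := by
  have h : s ∈ (⊤ : Submodule K (Stot M w)) := Submodule.mem_top
  rw [← iSup_grS M w] at h
  exact (iSup_le fun n => grS_le_span M w n) h

/-- `S → F` as a linear map. -/
noncomputable def phiS [IsDomain (Rg M)] : Stot M w →ₗ[K] FS M w :=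
  (IsScalarTower.toAlgHom K (Stot M w) (FS M w)).toLinearMap

/-- The monomials of `S`. -/
def monSet : Set (Stot M w) := {y | ∃ n, ∃ m, ∃ hm : m ∈ Good w n,
      y = (⟨mon M m, mon_mem M w hm⟩ : Stot M w)}

/-! ### At most one `T U_v` vanishes at a prime of height one -/

theorem uS_unique [Nonempty B] [IsDomain (Rg M)]
    (hM : ∀ b, AllMinors (M b)) (hc : ∀ b, Fintype.card (ι b) = 3 * r b + 1)
    (he : ∀ b, e b = 2 * r b) (hr : ∀ b, 1 ≤ r b) (hw : ∀ v, 3 • w v = 0)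
    (p : Ideal (Stot M w)) [hp' : p.IsPrime] (hp : p.height = 1) (c : ∀ b, ι b)
    (hcT : tS M w hw c ∉ p) (v v' : Var ι) (hv : v ≠ v') (hx : uS M w hw c v ∈ p) :
    uS M w hw c v' ∉ p := by
  have hSp : ∀ b, Nonempty (Split (e := e b) (M b)) := fun b =>
    exists_split (M b) (hM b) (by rw [hc, he]; omega)
  let Sp : ∀ b, Split (e := e b) (M b) := fun b => (hSp b).some
  have hxE := Pool.Agent.T9h46.NA.xE_ne_zero M hM hc hr
  refine Pool.Agent.T9h46.NA.notMem_of_height_one M Sp w hw hM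
    (fun b => by rw [hc]; have := hr b; omega) hv (a := aR M c v.1)
    (b := Ideal.Quotient.mk (idl M) (X (⟨v.1, c v.1⟩ : Var ι) ^ 3)) (a' := aR M c v'.1)
    (b' := Ideal.Quotient.mk (idl M) (X (⟨v'.1, c v'.1⟩ : Var ι) ^ 3)) (T := tS M w hw c)
    (aR_mul M c v.1) (aR_mul M c v'.1) rfl rfl p hp hcT ?_ hx
  intro h0
  have h1 : algebraMap (Rg M) (ER M) ((uS M w hw c v : Stot M w) : Rg M) = 0 := by
    rw [h0]; exact map_zero _
  change algebraMap (Rg M) (ER M) (Ideal.Quotient.mk (idl M) (X v ^ 3) * aR M c v.1) = 0 at h1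
  rw [map_mul, aR, map_prod] at h1
  rcases mul_eq_zero.1 h1 with h2 | h2
  · have h4 : algebraMap (Rg M) (ER M) (Ideal.Quotient.mk (idl M) (X v ^ 3)) = xE M v ^ 3 :=
      algebraMap_cb M v
    rw [h4] at h2
    exact pow_ne_zero 3 (hxE v) h2
  · obtain ⟨b, _, hb⟩ := Finset.prod_eq_zero_iff.1 h2
    have h4 : algebraMap (Rg M) (ER M) (Ideal.Quotient.mk (idl M)
        (X (⟨b, c b⟩ : Var ι) ^ 3)) = xE M ⟨b, c b⟩ ^ 3 := algebraMap_cb M _
    rw [h4] at hb
    exact pow_ne_zero 3 (hxE _) hb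

/-- The choice of the reference coordinates. -/
theorem exists_ch [Nonempty B] [IsDomain (Rg M)]
    (hM : ∀ b, AllMinors (M b)) (hc : ∀ b, Fintype.card (ι b) = 3 * r b + 1)
    (he : ∀ b, e b = 2 * r b) (hr : ∀ b, 1 ≤ r b) (hw : ∀ v, 3 • w v = 0)
    (p : Ideal (Stot M w)) [hp' : p.IsPrime] (hp : p.height = 1) (c : ∀ b, ι b)
    (hcT : tS M w hw c ∉ p) :
    ∃ ch : ∀ b, Fin (e b + 1) ↪ ι b, (∀ b, ch b 0 = c b) ∧
      ∀ b c', uS M w hw c ⟨b, c'⟩ ∈ p → c' ∈ Set.range (ch b) := by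
  classical
  have hch : ∀ b, ∃ i : Fin (e b + 1) ↪ ι b, i 0 = c b ∧
      ∀ c' ∈ (Finset.univ.filter fun c' : ι b => uS M w hw c ⟨b, c'⟩ ∈ p), c' ∈ Set.range i := by
    intro b
    refine exists_emb_of_card (by rw [hc, he]; have := hr b; omega) (c b) _ ?_ ?_
    · intro h
      have h1 := (Finset.mem_filter.1 h).2
      rw [uS_ref] at h1
      exact hcT h1
    · have h1 : (Finset.univ.filter fun c' : ι b => uS M w hw c ⟨b, c'⟩ ∈ p).card ≤ 1 := by
        rw [Finset.card_le_one]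
        intro x hx y hy
        by_contra hxy
        exact uS_unique M w hM hc he hr hw p hp c hcT ⟨b, x⟩ ⟨b, y⟩
          (fun h => hxy (eq_of_heq (Sigma.mk.inj h).2))
          (Finset.mem_filter.1 hx).2 (Finset.mem_filter.1 hy).2
      have := hr b
      have := he b
      omega
  choose ch hch0 hch1 using hch
  exact ⟨ch, hch0, fun b c' h => hch1 b c' (Finset.mem_filter.2 ⟨Finset.mem_univ _, h⟩)⟩

/-- The coefficients of the linear relations. -/
def aF (G : ∀ b, ι b → Fin (e b + 1) → K) (b : B) (v : ι b) (p : Σ b, Fin (e b)) : K :=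
  if h : p.1 = b then G b v (Fin.cast (by rw [h]) p.2.succ) else 0

theorem aF_self (G : ∀ b, ι b → Fin (e b + 1) → K) (b : B) (v : ι b) (k : Fin (e b)) :
    aF G b v ⟨b, k⟩ = G b v k.succ := dif_pos rfl

theorem aF_ne (G : ∀ b, ι b → Fin (e b + 1) → K) (b : B) (v : ι b) (b' : B) (h : b' ≠ b)
    (k : Fin (e b')) : aF G b v ⟨b', k⟩ = 0 := dif_neg h

/-- The linear relations. -/
theorem exists_lin [IsDomain (Rg M)]
    (hM : ∀ b, AllMinors (M b)) (hc : ∀ b, Fintype.card (ι b) = 3 * r b + 1)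
    (he : ∀ b, e b = 2 * r b) (hr : ∀ b, 1 ≤ r b) (hw : ∀ v, 3 • w v = 0)
    (ch : ∀ b, Fin (e b + 1) ↪ ι b) :
    ∃ (a0 : Rest ch → K) (a : Rest ch → (Σ b, Fin (e b)) → K), ∀ j : Rest ch,
      U M w ch j.1 = algebraMap K (FS M w) (a0 j) +
        ∑ p : (Σ b, Fin (e b)), algebraMap K (FS M w) (a j p) *
          U M w ch ⟨p.1, ch p.1 p.2.succ⟩ := by
  have hG : ∀ b, ∃ G : ι b → Fin (e b + 1) → K, ∀ v, U M w ch ⟨b, v⟩ =
      ∑ k, G v k • U M w ch ⟨b, ch b k⟩ := by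
    intro b
    obtain ⟨G, hG, _⟩ := Pool.Agent.T9h40.NA.exists_G (M b) (hM b)
      (by rw [hc, he]; omega : Fintype.card (ι b) = r b + (e b + 1)) (ch b)
    refine ⟨G, hG (FS M w) (fun v => U M w ch ⟨b, v⟩) fun j => ?_⟩
    have h1 := Pool.Agent.T9h46.NA.sum_M_U M w hM hc hr hw ch b j
    rw [← h1]
    exact Finset.sum_congr rfl fun v _ => Algebra.smul_def _ _
  choose G hG using hG
  refine ⟨fun j => G j.1.1 j.1.2 0, fun j p => aF G j.1.1 j.1.2 p, ?_⟩
  rintro ⟨⟨b, v⟩, hv⟩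
  change U M w ch ⟨b, v⟩ = algebraMap K (FS M w) (G b v 0) +
    ∑ p : (Σ b, Fin (e b)), algebraMap K (FS M w) (aF G b v p) *
      U M w ch ⟨p.1, ch p.1 p.2.succ⟩
  rw [Fintype.sum_sigma, Finset.sum_eq_single b]
  · have h1 := hG b v
    rw [Fin.sum_univ_succ, U_ref M w hM hc hr hw ch b] at h1
    rw [h1, Algebra.smul_def, mul_one]
    congr 1
    refine Finset.sum_congr rfl fun k _ => ?_
    rw [Algebra.smul_def, aF_self]
  · intro b' _ hb'
    refine Finset.sum_eq_zero fun k _ => ?_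
    rw [aF_ne _ _ _ _ hb', map_zero, zero_mul]
  · intro h; exact absurd (Finset.mem_univ _) h

theorem fam_eq [IsDomain (Rg M)] (ch : ∀ b, Fin (e b + 1) ↪ ι b) :
    fam M w ch = famA (T M w ch) (fun p : (Σ b, Fin (e b)) => U M w ch ⟨p.1, ch p.1 p.2.succ⟩) := by
  funext o
  cases o <;> rfl

/-! ### The theorem -/

theorem step_C [Nonempty B] [IsDomain (Rg M)] (h3 : (3 : K) ≠ 0)
    (hM : ∀ b, AllMinors (M b)) (hc : ∀ b, Fintype.card (ι b) = 3 * r b + 1)
    (he : ∀ b, e b = 2 * r b) (hr : ∀ b, 1 ≤ r b) (hw : ∀ v, 3 • w v = 0)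
    (hsum : ∀ b, ∑ c, w ⟨b, c⟩ = 0) {d : ℕ} (q : Fin d ≃ Option (Σ b, Fin (e b)))
    (hN : IsIntegrallyClosed (Stot M w))
    (p : Ideal (Stot M w)) [hp' : p.IsPrime] (hp : p.height = 1)
    (hbp : ∃ n, 0 < n ∧ ∃ m, ∃ hm : m ∈ Good w n, (⟨mon M m, mon_mem M w hm⟩ : Stot M w) ∉ p) :
    ∃ ch : ∀ b, Fin (e b + 1) ↪ ι b, ∀ x : Fin d → FS M w, (∀ i, x i ∈ atPrime p) →
      ∃ g ∈ atPrime p, exteriorPower.ιMulti (FS M w) d (fun i => D K (FS M w) (x i)) =
        g • omega M w ch q := by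
  classical
  obtain ⟨c, hcT⟩ := exists_T M w hw p hbp
  obtain ⟨ch, hch0, hch1⟩ := exists_ch M w hM hc he hr hw p hp c hcT
  have huniq := uS_unique M w hM hc he hr hw p hp c hcT
  have hcc : (fun b => ch b 0) = c := funext hch0
  have hTeq : T M w ch = algebraMap (Stot M w) (FS M w) (tS M w hw c) := by
    rw [T_eq M w hM hc hr hw ch, hcc]
  have hTU : ∀ v, T M w ch * U M w ch v = algebraMap (Stot M w) (FS M w) (uS M w hw c v) := by
    intro v
    rw [T_mul_U M w hM hc hr hw ch v, hcc]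
  have hT0 := T_ne_zero M w hM hc hr hw ch
  have hU0 := U_ne_zero M w hM hc hr hw ch
  have hTi : (T M w ch)⁻¹ ∈ atPrime p := by rw [hTeq]; exact inv_mem_atPrime p hcT
  have hTm : T M w ch ∈ atPrime p := by rw [hTeq]; exact algebraMap_mem_atPrime p _
  have hUm : ∀ v, U M w ch v ∈ atPrime p := by
    intro v
    have h1 : U M w ch v = (T M w ch)⁻¹ * (T M w ch * U M w ch v) := by
      rw [← mul_assoc, inv_mul_cancel₀ hT0, one_mul]
    rw [h1, hTU]
    exact (atPrime p).mul_mem hTi (algebraMap_mem_atPrime p _)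
  have hUi : ∀ v, uS M w hw c v ∉ p → (U M w ch v)⁻¹ ∈ atPrime p := by
    intro v hv
    have h1 : (U M w ch v)⁻¹ = T M w ch * (T M w ch * U M w ch v)⁻¹ := by
      rw [mul_inv, ← mul_assoc, mul_inv_cancel₀ hT0, one_mul]
    rw [h1, hTU]
    exact (atPrime p).mul_mem hTm (inv_mem_atPrime p hv)
  obtain ⟨a0, a, hlin⟩ := exists_lin M w hM hc he hr hw ch
  have hsplit : ∀ m : Var ι → ℕ, ∏ v, U M w ch v ^ m v =
      (∏ p : (Σ b, Fin (e b)), U M w ch ⟨p.1, ch p.1 p.2.succ⟩ ^ m ⟨p.1, ch p.1 p.2.succ⟩) *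
        ∏ j : Rest ch, U M w ch j.1 ^ m j.1 := fun m =>
    prod_split ch (fun v => U M w ch v ^ m v) fun b => by
      rw [U_ref M w hM hc hr hw ch b, one_pow]
  have hsplit1 : ∏ v, U M w ch v =
      (∏ p : (Σ b, Fin (e b)), U M w ch ⟨p.1, ch p.1 p.2.succ⟩) * ∏ j : Rest ch, U M w ch j.1 :=
    prod_split ch (fun v => U M w ch v) fun b => U_ref M w hM hc hr hw ch b
  refine ⟨ch, fun x hx => ?_⟩
  have hstar : ∀ i i' : (Σ b, Fin (e b)), i ≠ i' →
      (U M w ch ⟨i.1, ch i.1 i.2.succ⟩)⁻¹ ∈ atPrime p ∨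
        (U M w ch ⟨i'.1, ch i'.1 i'.2.succ⟩)⁻¹ ∈ atPrime p := by
    intro i i' hii
    by_cases hi : uS M w hw c ⟨i.1, ch i.1 i.2.succ⟩ ∈ p
    · right
      apply hUi
      refine huniq ⟨i.1, ch i.1 i.2.succ⟩ _ ?_ hi
      intro h
      have h1 := embI_injective ch (a₁ := ⟨i.1, i.2.succ⟩) (a₂ := ⟨i'.1, i'.2.succ⟩) h
      apply hii
      obtain ⟨i1, i2⟩ := i
      obtain ⟨i1', i2'⟩ := i'
      simp only [Sigma.mk.injEq] at h1
      obtain ⟨rfl, h2⟩ := h1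
      rw [Fin.succ_inj.1 (eq_of_heq h2)]
    · left
      exact hUi _ hi
  have hWi : ∀ j : Rest ch, (U M w ch j.1)⁻¹ ∈ atPrime p := by
    intro j
    apply hUi
    intro hj
    exact j.2 (hch1 j.1.1 j.1.2 hj)
  have hΨ : Psi M w ch ^ 3 = T M w ch /
      ((∏ p : (Σ b, Fin (e b)), U M w ch ⟨p.1, ch p.1 p.2.succ⟩) *
        ∏ j : Rest ch, U M w ch j.1) ^ 2 := by
    rw [Psi_cube M w hM hc hr hw ch hsum, hsplit1]
  have hmon : ∀ y ∈ monSet M w, ∃ (n : ℕ) (m : (Σ b, Fin (e b)) → ℕ) (k : Rest ch → ℕ),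
      algebraMap (Stot M w) (FS M w) y ^ 3 = T M w ch ^ n *
        (∏ p : (Σ b, Fin (e b)), U M w ch ⟨p.1, ch p.1 p.2.succ⟩ ^ m p) *
          ∏ j : Rest ch, U M w ch j.1 ^ k j := by
    rintro _ ⟨n, m, hm, rfl⟩
    refine ⟨n, fun p => m ⟨p.1, ch p.1 p.2.succ⟩, fun j => m j.1, ?_⟩
    rw [mon_cube M w hM hc hr hw ch hm, hsplit, mul_assoc]
  have hfrac : ∀ x ∈ atPrime p, ∃ a s : Stot M w, phiS M w s ≠ 0 ∧
      (phiS M w s)⁻¹ ∈ atPrime p ∧ x * phiS M w s = phiS M w a := by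
    rintro x ⟨a, s, hs, h⟩
    exact ⟨a, s, ne_zero_of_notMem p hs, inv_mem_atPrime p hs, h⟩
  rw [omega, fam_eq]
  exact core_F h3 (atPrime p) (fun c => algebraMap_mem_atPrime p (algebraMap K (Stot M w) c))
    (fun x h => cube_mem_atPrime p hN x h) (phiS M w) (fun s => algebraMap_mem_atPrime p s) hfrac
    q (monSet M w) (mem_span_mon M w)
    (T M w ch) hT0 hTm hTi (fun p : (Σ b, Fin (e b)) => U M w ch ⟨p.1, ch p.1 p.2.succ⟩)
    (fun p => hU0 _) (fun p => hUm _) hstar (fun j : Rest ch => U M w ch j.1) (fun j => hU0 _)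
    (fun j => hUm _) hWi a0 a hlin (Psi M w ch) hΨ hmon x hx

end Pool.Agent.T9h31.NA
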