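import Mathlib

/-!
# Alternating maps: spans and matrices; logarithmic differentials
-/

set_option linter.unusedSectionVars false

namespace Pool.Agent.T9h31.NA

section span

variable {F : Type*} [Field F] {Mod N : Type*} [AddCommGroup Mod] [Module F Mod] [AddCommGroup N]
  [Module F N]

/-- If `θ_i` lie in the span of `G` over the subring `O`, then `f θ` lies in the span of the
values of `f` on `G`. -/
theorem map_mem_span (O : Subring F) {ι : Type*} [DecidableEq ι] [Fintype ι]
    (f : Mod [⋀^ι]→ₗ[F] N) (G : Set Mod) (θ : ι → Mod) (hθ : ∀ i, θ i ∈ Submodule.span O G) :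
    f θ ∈ Submodule.span O {x : N | ∃ g : ι → Mod, (∀ i, g i ∈ G) ∧ x = f g} := by
  have key : ∀ s : Finset ι, ∀ θ : ι → Mod, (∀ i ∈ s, θ i ∈ Submodule.span O G) →
      (∀ i ∉ s, θ i ∈ G) →
      f θ ∈ Submodule.span O {x : N | ∃ g : ι → Mod, (∀ i, g i ∈ G) ∧ x = f g} := by
    intro s
    induction s using Finset.induction_on with
    | empty =>
      intro θ _ h
      exact Submodule.subset_span ⟨θ, fun i => h i (Finset.notMem_empty i), rfl⟩
    | insert a s ha ih =>
      intro θ h1 h2
      have h3 : ∀ y ∈ Submodule.span O G, f (Function.update θ a y) ∈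
          Submodule.span O {x : N | ∃ g : ι → Mod, (∀ i, g i ∈ G) ∧ x = f g} := by
        intro y hy
        refine Submodule.span_induction
          (p := fun y _ => f (Function.update θ a y) ∈
            Submodule.span O {x : N | ∃ g : ι → Mod, (∀ i, g i ∈ G) ∧ x = f g}) ?_ ?_ ?_ ?_ hy
        · intro y hy
          apply ih
          · intro i hi
            rw [Function.update_of_ne (by rintro rfl; exact ha hi)]
            exact h1 i (Finset.mem_insert_of_mem hi)
          · intro i hi
            by_cases hia : i = a
            · subst hia; rw [Function.update_self]; exact hy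
            · rw [Function.update_of_ne hia]
              exact h2 i (by rw [Finset.mem_insert]; push Not; exact ⟨hia, hi⟩)
        · rw [f.map_update_zero]; exact Submodule.zero_mem _
        · intro y z _ _ hy hz
          rw [f.map_update_add]; exact Submodule.add_mem _ hy hz
        · intro c y _ hy
          have : c • y = (c : F) • y := rfl
          rw [this, f.map_update_smul]
          exact Submodule.smul_mem _ c hy
      have h4 := h3 (θ a) (h1 a (Finset.mem_insert_self a s))
      rwa [Function.update_eq_self] at h4
  exact key Finset.univ θ (fun i _ => hθ i) (fun i hi => absurd (Finset.mem_univ i) hi)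

/-- `f` at the combinations `∑_x A_jx η_x` is `det A` times `f η`. -/
theorem map_matrix {ι : Type*} [DecidableEq ι] [Fintype ι]
    (f : Mod [⋀^ι]→ₗ[F] N) (A : Matrix ι ι F) (η : ι → Mod) :
    f (fun j => ∑ x, A j x • η x) = A.det • f η := by
  have h : f.compLinearMap (Fintype.linearCombination F η) =
      (LinearMap.toSpanSingleton F N (f η)).compAlternatingMap
        (Matrix.detRowAlternating : (ι → F) [⋀^ι]→ₗ[F] F) := by
    refine Module.Basis.ext_alternating (Pi.basisFun F ι) fun v hv => ?_
    obtain ⟨σ, hσ⟩ : ∃ σ : Equiv.Perm ι, ⇑σ = v :=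
      ⟨Equiv.ofBijective v (Finite.injective_iff_bijective.1 hv), rfl⟩
    rw [AlternatingMap.compLinearMap_apply, LinearMap.compAlternatingMap_apply]
    have h1 : (fun i => Fintype.linearCombination F η (Pi.basisFun F ι (v i))) = η ∘ σ := by
      funext i
      rw [Pi.basisFun_apply, Fintype.linearCombination_apply_single, one_smul, ← hσ]
      rfl
    have h2 : Matrix.detRowAlternating (fun i => Pi.basisFun F ι (v i)) =
        ((Equiv.Perm.sign σ : ℤ) : F) := by
      change Matrix.det (Matrix.of fun i => (Pi.basisFun F ι (v i) : ι → F)) = _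
      have h3 : (Matrix.of fun i => (Pi.basisFun F ι (v i) : ι → F)) =
          (1 : Matrix ι ι F).submatrix σ id := by
        ext i j
        rw [Matrix.of_apply, Pi.basisFun_apply, Matrix.submatrix_apply, Matrix.one_apply,
          Pi.single_apply, hσ, id]
        simp only [eq_comm]
      rw [h3, Matrix.det_permute, Matrix.det_one, mul_one]
    rw [h1, h2, AlternatingMap.map_perm, LinearMap.toSpanSingleton_apply, Units.smul_def,
      Int.cast_smul_eq_zsmul]
  have h2 := congrArg (fun g => g (fun i j => A i j)) h
  rw [AlternatingMap.compLinearMap_apply, LinearMap.compAlternatingMap_apply,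
    LinearMap.toSpanSingleton_apply] at h2
  simp only [Fintype.linearCombination_apply] at h2
  exact h2

end span

section dlog

variable {K F : Type*} [Field K] [Field F] [Algebra K F] {Mod : Type*} [AddCommGroup Mod]
  [Module F Mod] [Module K Mod] [IsScalarTower K F Mod] (D : Derivation K F Mod)

/-- Logarithmic differential. -/
noncomputable def dlog (x : F) : Mod := x⁻¹ • D x

theorem dlog_one : dlog D (1 : F) = 0 := by
  rw [dlog, D.map_one_eq_zero, smul_zero]

theorem smul_dlog {x : F} (hx : x ≠ 0) : x • dlog D x = D x := by
  rw [dlog, smul_smul, mul_inv_cancel₀ hx, one_smul]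

theorem dlog_mul {x y : F} (hx : x ≠ 0) (hy : y ≠ 0) :
    dlog D (x * y) = dlog D x + dlog D y := by
  rw [dlog, D.leibniz, smul_add, smul_smul, smul_smul, add_comm]
  congr 1
  · rw [dlog]; congr 1; field_simp
  · rw [dlog]; congr 1; field_simp

theorem dlog_pow {x : F} (hx : x ≠ 0) (n : ℕ) : dlog D (x ^ n) = (n : F) • dlog D x := by
  induction n with
  | zero => rw [pow_zero, dlog_one, Nat.cast_zero, zero_smul]
  | succ n ih =>
    rw [pow_succ, dlog_mul D (pow_ne_zero n hx) hx, ih, Nat.cast_succ, add_smul, one_smul]

theorem dlog_prod {ι : Type*} (s : Finset ι) (x : ι → F) (hx : ∀ i ∈ s, x i ≠ 0) :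
    dlog D (∏ i ∈ s, x i) = ∑ i ∈ s, dlog D (x i) := by
  classical
  induction s using Finset.induction_on with
  | empty => rw [Finset.prod_empty, Finset.sum_empty, dlog_one]
  | insert a s ha ih =>
    rw [Finset.prod_insert ha, Finset.sum_insert ha, dlog_mul D (hx a (Finset.mem_insert_self a s))
      (Finset.prod_ne_zero_iff.2 fun i hi => hx i (Finset.mem_insert_of_mem hi)),
      ih fun i hi => hx i (Finset.mem_insert_of_mem hi)]

end dlog

end Pool.Agent.T9h31.NA
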