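import Pool.Agent.T9h22.RS.Defs
import Pool.Agent.T9h31.NA.Wedge

/-!
# The local ring at a prime: cubes, inverses, differentials
-/

set_option linter.unusedSectionVars false

namespace Pool.Agent.T9h31.NA

open Pool.Agent.T9h22.RS

variable {S : Type*} [CommRing S] [IsDomain S] (p : Ideal S) [hp : p.IsPrime]

theorem algebraMap_mem_atPrime (a : S) : algebraMap S (FractionRing S) a ∈ atPrime p :=
  ⟨a, 1, fun h => hp.ne_top ((Ideal.eq_top_iff_one p).2 h), by rw [map_one, mul_one]⟩

theorem ne_zero_of_notMem {s : S} (hs : s ∉ p) : algebraMap S (FractionRing S) s ≠ 0 := by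
  intro h
  rw [IsFractionRing.to_map_eq_zero_iff] at h
  exact hs (h ▸ p.zero_mem)

theorem inv_mem_atPrime {s : S} (hs : s ∉ p) :
    (algebraMap S (FractionRing S) s)⁻¹ ∈ atPrime p :=
  ⟨1, s, hs, by rw [inv_mul_cancel₀ (ne_zero_of_notMem p hs), map_one]⟩

theorem cube_mem_atPrime (hN : IsIntegrallyClosed S) (x : FractionRing S)
    (h : x ^ 3 ∈ atPrime p) : x ∈ atPrime p := by
  obtain ⟨a, s, hs, h⟩ := h
  have h1 : IsIntegral S (x * algebraMap S (FractionRing S) s) := by
    apply IsIntegral.of_pow (n := 3) (by norm_num)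
    have : (x * algebraMap S (FractionRing S) s) ^ 3 =
        algebraMap S (FractionRing S) (a * s ^ 2) := by
      rw [map_mul, map_pow, ← h]; ring
    rw [this]
    exact isIntegral_algebraMap
  obtain ⟨b, hb⟩ := IsIntegrallyClosed.isIntegral_iff.1 h1
  exact ⟨b, s, hs, hb.symm⟩

theorem D_mem_span {K : Type*} [Field K] [Algebra K (FractionRing S)] {Mod : Type*}
    [AddCommGroup Mod] [Module (FractionRing S) Mod] [Module K Mod]
    (D : Derivation K (FractionRing S) Mod) (G : Set Mod)
    (h : ∀ s : S, D (algebraMap S (FractionRing S) s) ∈ Submodule.span (atPrime p) G)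
    (x : FractionRing S) (hx : x ∈ atPrime p) : D x ∈ Submodule.span (atPrime p) G := by
  have hx' := hx
  obtain ⟨a, s, hs, hxs⟩ := hx'
  have h2 : x • D (algebraMap S (FractionRing S) s) +
      algebraMap S (FractionRing S) s • D x = D (algebraMap S (FractionRing S) a) := by
    rw [← D.leibniz, hxs]
  have h3 : D x = (algebraMap S (FractionRing S) s)⁻¹ •
      (D (algebraMap S (FractionRing S) a) - x • D (algebraMap S (FractionRing S) s)) := by
    rw [← h2, add_sub_cancel_left, smul_smul, inv_mul_cancel₀ (ne_zero_of_notMem p hs), one_smul]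
  rw [h3]
  exact Submodule.smul_mem _ (⟨_, inv_mem_atPrime p hs⟩ : atPrime p)
    (Submodule.sub_mem _ (h a) (Submodule.smul_mem _ (⟨x, hx⟩ : atPrime p) (h s)))

end Pool.Agent.T9h31.NA
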