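import Pool.Agent.T9h31.NA.FreeP

/-!
# MP_954e53_ag.NegativeAnswer, part (4): `S_n` in terms of the basis `X^a` and the grading of `S`
-/

set_option linter.unusedSectionVars false

namespace Pool.Agent.T9h31.NA

open MvPolynomial Pool.Agent.T9h29.NA

universe u

section general

variable {K : Type u} [Field K] {B : Type} [Fintype B] [DecidableEq B] {ι : B → Type}
  [∀ b, Fintype (ι b)] [∀ b, DecidableEq (ι b)] {r e : B → ℕ}

/-! ### Weights -/

/-- The weights (block degree, weight). -/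
def wX {A : Type*} [AddCommGroup A] (w : Var ι → A) (v : Var ι) : (B → ℕ) × A :=
  (Pi.single v.1 1, w v)

/-- The block degrees on `P`. -/
def wU (p : Σ b, Fin (e b + 1)) : B → ℕ := Pi.single p.1 1

theorem weight_wX {A : Type*} [AddCommGroup A] (w : Var ι → A) (m : Var ι →₀ ℕ) :
    Finsupp.weight (wX w) m = (fun b => bdeg m b, wgt w m) := by
  rw [Finsupp.weight_apply, Finsupp.sum_fintype _ _ (by intro i; exact zero_smul _ _)]
  apply Prod.ext
  · rw [Prod.fst_sum]
    funext b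
    rw [Finset.sum_apply, Fintype.sum_sigma]
    rw [Finset.sum_eq_single b]
    · refine Finset.sum_congr rfl fun c _ => ?_
      simp [wX]
    · intro b' _ hb'
      refine Finset.sum_eq_zero fun c _ => ?_
      simp [wX, Pi.single_eq_of_ne (Ne.symm hb')]
    · intro h; exact absurd (Finset.mem_univ _) h
  · rw [Prod.snd_sum]
    rfl

theorem weight_wU (m : (Σ b, Fin (e b + 1)) →₀ ℕ) :
    Finsupp.weight (wU (e := e)) m = fun b => ∑ j, m ⟨b, j⟩ := by
  rw [Finsupp.weight_apply, Finsupp.sum_fintype _ _ (by intro i; exact zero_smul _ _)]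
  funext b
  rw [Finset.sum_apply, Fintype.sum_sigma]
  rw [Finset.sum_eq_single b]
  · refine Finset.sum_congr rfl fun c _ => ?_
    simp [wU]
  · intro b' _ hb'
    refine Finset.sum_eq_zero fun c _ => ?_
    simp [wU, Pi.single_eq_of_ne (Ne.symm hb')]
  · intro h; exact absurd (Finset.mem_univ _) h

theorem mem_restrictSupport_iff {σ : Type*} (s : Set (σ →₀ ℕ)) (f : MvPolynomial σ K) :
    f ∈ restrictSupport K s ↔ ∀ m, coeff m f ≠ 0 → m ∈ s := by
  constructor
  · intro h m hm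
    exact h (by rw [Finset.mem_coe]; exact mem_support_iff.2 hm)
  · intro h m hm
    exact h m (mem_support_iff.1 hm)

theorem isWH_iff_good {A : Type*} [AddCommGroup A] (w : Var ι → A) (n : ℕ)
    (f : MvPolynomial (Var ι) K) :
    IsWeightedHomogeneous (wX w) f (fun _ => n, (0 : A)) ↔ f ∈ restrictSupport K (Good w n) := by
  rw [mem_restrictSupport_iff]
  constructor
  · intro h m hm
    have h1 := h hm
    rw [weight_wX, Prod.mk.injEq] at h1
    exact ⟨fun b => congrFun h1.1 b, h1.2⟩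
  · intro h m hm
    obtain ⟨h1, h2⟩ := h m hm
    rw [weight_wX, Prod.mk.injEq]
    exact ⟨funext h1, h2⟩

/-! ### From `X` to `U` -/

variable (M : ∀ b, Matrix (Fin (r b)) (ι b) K) (Sp : ∀ b, Split (e := e b) (M b))

theorem isWH_ell (v : Var ι) : IsWeightedHomogeneous wU (ell M Sp v) (Pi.single v.1 1) := by
  unfold ell
  refine IsWeightedHomogeneous.sum _ _ _ fun j _ => ?_
  have h1 := (isWeightedHomogeneous_C (wU (e := e)) ((Sp v.1).L v.2 j)).mul
    (isWeightedHomogeneous_X K (wU (e := e)) ⟨v.1, j⟩)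
  rwa [zero_add] at h1

theorem isWH_fl (m : Var ι →₀ ℕ) :
    IsWeightedHomogeneous wU (fl M Sp m) (∑ v : Var ι, (m v / 3) • Pi.single v.1 1) := by
  unfold fl
  exact IsWeightedHomogeneous.prod _ _ _ fun v _ => (isWH_ell M Sp v).pow _

theorem sum_div (m : Var ι →₀ ℕ) (b : B) :
    (∑ v : Var ι, (m v / 3) • Pi.single (M := fun _ => ℕ) v.1 1) b = ∑ c, m ⟨b, c⟩ / 3 := by
  rw [Finset.sum_apply, Fintype.sum_sigma, Finset.sum_eq_single b]
  · refine Finset.sum_congr rfl fun c _ => ?_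
    simp
  · intro b' _ hb'
    refine Finset.sum_eq_zero fun c _ => ?_
    simp [Pi.single_eq_of_ne (Ne.symm hb')]
  · intro h; exact absurd (Finset.mem_univ _) h

/-- Exponents on `P` which occur at the basis vector `X^a` of the elements of `S_n`. -/
def En (a : Var ι → Fin 3) (n : ℕ) : Set ((Σ b, Fin (e b + 1)) →₀ ℕ) :=
  {m | ∀ b, 3 * (∑ j, m ⟨b, j⟩) + adeg a b = n}

theorem bdeg_mod3 (m : Var ι →₀ ℕ) (b : B) :
    3 * (∑ c, m ⟨b, c⟩ / 3) + adeg (mod3 m) b = bdeg m b := by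
  unfold adeg bdeg
  rw [Finset.mul_sum, ← Finset.sum_add_distrib]
  refine Finset.sum_congr rfl fun c _ => ?_
  simp only [mod3]
  omega

theorem wgt_mod3 {A : Type*} [AddCommGroup A] (w : Var ι → A) (hw : ∀ v, 3 • w v = 0)
    (m : Var ι →₀ ℕ) : awgt w (mod3 m) = wgt w m := by
  unfold awgt wgt
  refine Finset.sum_congr rfl fun v _ => ?_
  have h1 : m v = 3 * (m v / 3) + m v % 3 := by omega
  conv_rhs => rw [h1, add_smul, mul_smul, smul_comm, hw, smul_zero, zero_add]
  rfl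

/-- The coordinates of the elements of `S_n`. -/
def Tn {A : Type*} [AddCommGroup A] (K : Type u) [Field K] (e : B → ℕ) (w : Var ι → A) (n : ℕ) :
    Submodule K ((Var ι → Fin 3) → Pg K e) where
  carrier := {p | ∀ a, p a ≠ 0 → awgt w a = 0 ∧ p a ∈ restrictSupport K (En (e := e) a n)}
  zero_mem' := fun a h => absurd rfl h
  add_mem' := by
    intro p q hp hq a h
    rw [Pi.add_apply] at h ⊢
    by_cases h1 : p a = 0
    · rw [h1, zero_add] at h ⊢
      exact hq a h
    · by_cases h2 : q a = 0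
      · rw [h2, add_zero] at h ⊢
        exact hp a h
      · exact ⟨(hp a h1).1, Submodule.add_mem _ (hp a h1).2 (hq a h2).2⟩
  smul_mem' := by
    intro c p hp a h
    rw [Pi.smul_apply] at h ⊢
    have h1 : p a ≠ 0 := fun h0 => h (by rw [h0, smul_zero])
    exact ⟨(hp a h1).1, Submodule.smul_mem _ _ (hp a h1).2⟩

theorem mem_Tn {A : Type*} [AddCommGroup A] (w : Var ι → A) (n : ℕ)
    (p : (Var ι → Fin 3) → Pg K e) :
    p ∈ Tn K e w n ↔
      ∀ a, p a ≠ 0 → awgt w a = 0 ∧ p a ∈ restrictSupport K (En (e := e) a n) := Iff.rfl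

theorem Nmap_mem {A : Type*} [AddCommGroup A] (w : Var ι → A) (hw : ∀ v, 3 • w v = 0) (n : ℕ)
    (f : MvPolynomial (Var ι) K) (hf : f ∈ restrictSupport K (Good w n)) :
    Nmap M Sp f ∈ Tn K e w n := by
  rw [mem_restrictSupport_iff] at hf
  rw [f.as_sum, map_sum]
  refine Submodule.sum_mem _ fun m hm => ?_
  obtain ⟨h1, h2⟩ := hf m (mem_support_iff.1 hm)
  rw [Nmap_monomial]
  refine Submodule.smul_mem _ _ ?_
  rw [mem_Tn]
  intro a ha
  have h3 : a = mod3 m := by
    by_contra h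
    exact ha (Pi.single_eq_of_ne h _)
  subst h3
  refine ⟨by rw [wgt_mod3 w hw, h2], ?_⟩
  rw [Pi.single_eq_same, mem_restrictSupport_iff]
  intro m' hm' b
  have h4 := isWH_fl M Sp m hm'
  rw [weight_wU] at h4
  have h5 := congrFun h4 b
  rw [sum_div] at h5
  have h5' : ∑ j, m' ⟨b, j⟩ = ∑ c, m ⟨b, c⟩ / 3 := h5
  rw [h5', bdeg_mod3, h1]

/-! ### From `U` to `X` -/

theorem isWH_Y {A : Type*} [AddCommGroup A] (w : Var ι → A) (hw : ∀ v, 3 • w v = 0) (b : B)
    (q : ι b → K) : IsWeightedHomogeneous (wX w) (∑ c, C (q c) * X (⟨b, c⟩ : Var ι) ^ 3)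
      (3 • Pi.single b 1, (0 : A)) := by
  refine IsWeightedHomogeneous.sum _ _ _ fun c _ => ?_
  have h1 := (isWeightedHomogeneous_C (wX w) (q c)).mul
    ((isWeightedHomogeneous_X K (wX w) (⟨b, c⟩ : Var ι)).pow 3)
  rw [zero_add] at h1
  convert h1 using 1
  rw [wX, Prod.smul_mk, hw]

theorem psi_Xa_mem {A : Type*} [AddCommGroup A] (w : Var ι → A) (hw : ∀ v, 3 • w v = 0) (n : ℕ)
    (a : Var ι → Fin 3) (ha : awgt w a = 0) (p : Pg K e)
    (hp : p ∈ restrictSupport K (En (e := e) a n)) : psi M Sp p * Xa M a ∈ Sn M w n := by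
  rw [mem_restrictSupport_iff] at hp
  rw [p.as_sum, map_sum, Finset.sum_mul]
  refine Submodule.sum_mem _ fun m hm => ?_
  have hm' := hp m (mem_support_iff.1 hm)
  rw [show monomial m (coeff m p) = coeff m p • monomial m (1 : K) by
    rw [smul_monomial, smul_eq_mul, mul_one], map_smul, smul_mul_assoc]
  refine Submodule.smul_mem _ _ ?_
  have h1 : psi M Sp (monomial m 1) * Xa M a = Ideal.Quotient.mk (idl M)
      ((∏ q : (Σ b, Fin (e b + 1)), (∑ c, C ((Sp q.1).Q q.2 c) * X ⟨q.1, c⟩ ^ 3) ^ m q) *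
        ∏ v, X v ^ (a v : ℕ)) := by
    rw [map_mul, Xa]
    congr 1
    rw [psi, aeval_monomial, map_one, one_mul, Finsupp.prod_fintype _ _ (fun i => pow_zero _),
      map_prod]
    refine Finset.prod_congr rfl fun q _ => ?_
    rw [map_pow]
  rw [h1]
  refine ⟨_, ?_, rfl⟩
  rw [SetLike.mem_coe, ← isWH_iff_good]
  have h2 : IsWeightedHomogeneous (wX w)
      (∏ q : (Σ b, Fin (e b + 1)), (∑ c, C ((Sp q.1).Q q.2 c) * X ⟨q.1, c⟩ ^ 3) ^ m q :
        MvPolynomial (Var ι) K)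
      (∑ q : (Σ b, Fin (e b + 1)), m q • ((3 • Pi.single q.1 1 : B → ℕ), (0 : A))) :=
    IsWeightedHomogeneous.prod _ _ _ fun q _ => (isWH_Y w hw q.1 _).pow _
  have h3 : IsWeightedHomogeneous (wX w) (∏ v, X v ^ (a v : ℕ) : MvPolynomial (Var ι) K)
      (∑ v, (a v : ℕ) • wX w v) :=
    IsWeightedHomogeneous.prod _ _ _ fun v _ => (isWeightedHomogeneous_X K _ v).pow _
  have h4 := h2.mul h3
  convert h4 using 1
  apply Prod.ext
  · rw [Prod.fst_add, Prod.fst_sum, Prod.fst_sum]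
    funext b
    rw [Pi.add_apply, Finset.sum_apply, Finset.sum_apply, Fintype.sum_sigma, Fintype.sum_sigma,
      Finset.sum_eq_single b, Finset.sum_eq_single b]
    · have h5 := hm' b
      change n = _
      rw [← h5, Finset.mul_sum]
      congr 1
      · refine Finset.sum_congr rfl fun j _ => ?_
        simp [mul_comm]
      · unfold adeg
        refine Finset.sum_congr rfl fun c _ => ?_
        simp [wX]
    · intro b' _ hb'
      refine Finset.sum_eq_zero fun c _ => ?_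
      simp [wX, Pi.single_eq_of_ne (Ne.symm hb')]
    · intro h; exact absurd (Finset.mem_univ _) h
    · intro b' _ hb'
      refine Finset.sum_eq_zero fun c _ => ?_
      simp [Pi.single_eq_of_ne (Ne.symm hb')]
    · intro h; exact absurd (Finset.mem_univ _) h
  · rw [Prod.snd_add, Prod.snd_sum, Prod.snd_sum]
    change (0 : A) = _
    simp only [Prod.smul_snd, smul_zero, Finset.sum_const_zero, zero_add]
    exact ha.symm

theorem mem_Sn_iff' {A : Type*} [AddCommGroup A] (w : Var ι → A) (hw : ∀ v, 3 • w v = 0)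
    (n : ℕ) (x : Rg M) : x ∈ Sn M w n ↔ Nbar M Sp x ∈ Tn K e w n := by
  constructor
  · rintro ⟨f, hf, rfl⟩
    change Nbar M Sp (Ideal.Quotient.mk (idl M) f) ∈ _
    rw [Nbar_mk]
    exact Nmap_mem M Sp w hw n f hf
  · intro h
    rw [sum_Nbar M Sp x]
    refine Submodule.sum_mem _ fun a _ => ?_
    by_cases ha : Nbar M Sp x a = 0
    · rw [ha, map_zero, zero_mul]; exact Submodule.zero_mem _
    · obtain ⟨h1, h2⟩ := h a ha
      exact psi_Xa_mem M Sp w hw n a h1 _ h2

theorem mem_Sn_iff {A : Type*} [AddCommGroup A] (w : Var ι → A) (hw : ∀ v, 3 • w v = 0)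
    (M : ∀ b, Matrix (Fin (r b)) (ι b) K) (Sp : ∀ b, Split (e := e b) (M b)) (n : ℕ)
    (p : (Var ι → Fin 3) → Pg K e) :
    ∑ a, psi M Sp (p a) * Xa M a ∈ Sn M w n ↔
      ∀ a, p a ≠ 0 → awgt w a = 0 ∧
        p a ∈ restrictSupport K {m | ∀ b, 3 * (∑ j, m ⟨b, j⟩) + adeg a b = n} := by
  rw [mem_Sn_iff' M Sp w hw, Nbar_sum]
  rfl

/-! ### The grading -/

theorem Sn_mul {A : Type*} [AddCommGroup A] (w : Var ι → A) {i j : ℕ} {x y : Rg M}
    (hx : x ∈ Sn M w i) (hy : y ∈ Sn M w j) : x * y ∈ Sn M w (i + j) := by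
  obtain ⟨f, hf, rfl⟩ := hx
  obtain ⟨g, hg, rfl⟩ := hy
  rw [SetLike.mem_coe, ← isWH_iff_good] at hf hg
  refine ⟨f * g, ?_, map_mul (Ideal.Quotient.mk (idl M)) f g⟩
  rw [SetLike.mem_coe, ← isWH_iff_good]
  have h := hf.mul hg
  convert h using 1
  rw [Prod.mk_add_mk, add_zero]
  rfl

theorem one_mem_Sn {A : Type*} [AddCommGroup A] (w : Var ι → A) : (1 : Rg M) ∈ Sn M w 0 := by
  refine ⟨1, ?_, map_one (Ideal.Quotient.mk (idl M))⟩
  rw [SetLike.mem_coe, ← isWH_iff_good]
  exact isWeightedHomogeneous_one K _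

theorem Sn_le {A : Type*} [AddCommGroup A] (w : Var ι → A) (n : ℕ) {x : Rg M}
    (hx : x ∈ Sn M w n) : x ∈ Stot M w :=
  Algebra.subset_adjoin (Set.mem_iUnion.2 ⟨n, hx⟩)

theorem Stot_le {A : Type*} [AddCommGroup A] (w : Var ι → A) {x : Rg M}
    (hx : x ∈ Stot M w) : x ∈ ⨆ n, Sn M w n := by
  refine Algebra.adjoin_induction (p := fun x _ => x ∈ ⨆ n, Sn M w n) ?_ ?_ ?_ ?_ hx
  · intro x hx
    obtain ⟨n, hn⟩ := Set.mem_iUnion.1 hx
    exact Submodule.mem_iSup_of_mem n hn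
  · intro c
    rw [Algebra.algebraMap_eq_smul_one]
    exact Submodule.smul_mem _ _ (Submodule.mem_iSup_of_mem 0 (one_mem_Sn M w))
  · intro x y _ _ hx hy
    exact Submodule.add_mem _ hx hy
  · intro x y _ _ hx hy
    have h1 : (⨆ n, Sn M w n) * (⨆ n, Sn M w n) ≤ ⨆ n, Sn M w n := by
      rw [Submodule.iSup_mul]
      refine iSup_le fun i => ?_
      rw [Submodule.mul_iSup]
      refine iSup_le fun j => ?_
      rw [Submodule.mul_le]
      intro a ha b hb
      exact Submodule.mem_iSup_of_mem (i + j) (Sn_mul M w ha hb)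
    exact h1 (Submodule.mul_mem_mul hx hy)

theorem mem_grS {A : Type*} [AddCommGroup A] (w : Var ι → A) (n : ℕ) (x : Stot M w) :
    x ∈ grS M w n ↔ (x : Rg M) ∈ Sn M w n := Iff.rfl

theorem iSup_grS {A : Type*} [AddCommGroup A] (w : Var ι → A) : ⨆ n, grS M w n = ⊤ := by
  rw [eq_top_iff]
  intro x _
  have h1 := Stot_le M w x.2
  have h2 : ∀ n, Sn M w n = (grS M w n).map (Stot M w).val.toLinearMap := by
    intro n
    apply le_antisymm
    · intro y hy
      exact ⟨⟨y, Sn_le M w n hy⟩, hy, rfl⟩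
    · rintro _ ⟨y, hy, rfl⟩
      exact hy
  simp only [h2] at h1
  rw [← Submodule.map_iSup] at h1
  obtain ⟨y, hy, hyx⟩ := h1
  have : y = x := Subtype.ext hyx
  rwa [← this]

theorem iSupIndep_Tn [Nonempty B] {A : Type*} [AddCommGroup A] (w : Var ι → A) :
    iSupIndep (fun n => Tn K e w n) := by
  intro n
  rw [disjoint_iff_inf_le]
  rintro p ⟨hp1, hp2⟩
  rw [Submodule.mem_bot]
  funext a
  by_contra ha
  rw [Pi.zero_apply] at ha
  have h1 := (hp1 a ha).2
  have h2 : p a ∈ restrictSupport K (⋃ m ∈ {m | m ≠ n}, En (e := e) (ι := ι) a m) := by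
    have h3 : (⨆ j, ⨆ (_ : j ≠ n), Tn K e w j) ≤
        (restrictSupport K (⋃ m ∈ {m | m ≠ n}, En (e := e) (ι := ι) a m)).comap
          (LinearMap.proj a : ((Var ι → Fin 3) → Pg K e) →ₗ[K] Pg K e) := by
      refine iSup₂_le fun j hj q hq => ?_
      rw [Submodule.mem_comap, LinearMap.proj_apply, mem_restrictSupport_iff]
      intro m hm
      have hqa : q a ≠ 0 := by
        intro h0; rw [h0, coeff_zero] at hm; exact hm rfl
      have h4 := (mem_restrictSupport_iff _ _).1 (hq a hqa).2 m hm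
      exact Set.mem_biUnion (show j ∈ {m | m ≠ n} from hj) h4
    exact h3 hp2
  rw [mem_restrictSupport_iff] at h1 h2
  obtain ⟨m, hm⟩ := ne_zero_iff.1 ha
  have h5 := h1 m hm
  obtain ⟨j, hj, h6⟩ := Set.mem_iUnion₂.1 (h2 m hm)
  obtain ⟨b⟩ := ‹Nonempty B›
  exact hj ((h6 b).symm.trans (h5 b))

theorem iSupIndep_grS [Nonempty B] {A : Type*} [AddCommGroup A] (w : Var ι → A)
    (hw : ∀ v, 3 • w v = 0) (Sp : ∀ b, Split (e := e b) (M b)) :
    iSupIndep (fun n => grS M w n) := by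
  intro n
  rw [disjoint_iff_inf_le]
  rintro x ⟨hx1, hx2⟩
  rw [Submodule.mem_bot]
  apply Subtype.ext
  apply Nbar_injective M Sp
  rw [ZeroMemClass.coe_zero, map_zero]
  have h1 := (mem_Sn_iff' M Sp w hw n _).1 hx1
  have h2 : Nbar M Sp (x : Rg M) ∈ ⨆ j, ⨆ (_ : j ≠ n), Tn K e w j := by
    have h3 : (⨆ j, ⨆ (_ : j ≠ n), grS M w j) ≤
        (⨆ j, ⨆ (_ : j ≠ n), Tn K e w j).comap
          ((Nbar M Sp).comp (Stot M w).val.toLinearMap) := by
      refine iSup₂_le fun j hj q hq => ?_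
      rw [Submodule.mem_comap]
      exact Submodule.mem_iSup_of_mem j (Submodule.mem_iSup_of_mem hj
        ((mem_Sn_iff' M Sp w hw j _).1 hq))
    exact h3 hx2
  have h4 := (iSupIndep_Tn (K := K) (e := e) w n).le_bot ⟨h1, h2⟩
  exact (Submodule.mem_bot K).1 h4

theorem exists_graded [Nonempty B] {A : Type*} [AddCommGroup A] (w : Var ι → A)
    (hw : ∀ v, 3 • w v = 0)
    (M : ∀ b, Matrix (Fin (r b)) (ι b) K) (Sp : ∀ b, Split (e := e b) (M b)) :
    Nonempty (GradedAlgebra (grS M w)) := by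
  classical
  have hint : DirectSum.IsInternal (grS M w) :=
    DirectSum.isInternal_submodule_of_iSupIndep_of_iSup_eq_top (iSupIndep_grS M w hw Sp)
      (iSup_grS M w)
  exact ⟨{ one_mem := one_mem_Sn M w
           mul_mem := fun {i j x y} hx hy => Sn_mul M w hx hy
           toDecomposition := hint.chooseDecomposition }⟩

end general

end Pool.Agent.T9h31.NA
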