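import Pool.Agent.T9h31.NA.Split

/-!
# MP_954e53_ag.NegativeAnswer, part (4): `R` is free over `P` with basis `X^a`, `a ∈ {0,1,2}^V`
-/

namespace Pool.Agent.T9h31.NA

open MvPolynomial Pool.Agent.T9h29.NA

universe u

section general

variable {K : Type u} [Field K] {B : Type} [Fintype B] [DecidableEq B] {ι : B → Type}
  [∀ b, Fintype (ι b)] [∀ b, DecidableEq (ι b)] {r e : B → ℕ}

/-- Residues modulo `3` of an exponent vector. -/
def mod3 (m : Var ι →₀ ℕ) : Var ι → Fin 3 := fun v => ⟨m v % 3, Nat.mod_lt _ (by norm_num)⟩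

/-- `∏_v ℓ_v^{m_v / 3}`. -/
noncomputable def fl (M : ∀ b, Matrix (Fin (r b)) (ι b) K) (Sp : ∀ b, Split (e := e b) (M b))
    (m : Var ι →₀ ℕ) : Pg K e := ∏ v, ell M Sp v ^ (m v / 3)

/-- The normal form on polynomials: `x^m ↦ (∏ ℓ^{m / 3}) e_{m mod 3}`. -/
noncomputable def Nmap (M : ∀ b, Matrix (Fin (r b)) (ι b) K)
    (Sp : ∀ b, Split (e := e b) (M b)) :
    MvPolynomial (Var ι) K →ₗ[K] ((Var ι → Fin 3) → Pg K e) :=
  (basisMonomials (Var ι) K).constr K fun m => Pi.single (mod3 m) (fl M Sp m)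

variable (M : ∀ b, Matrix (Fin (r b)) (ι b) K) (Sp : ∀ b, Split (e := e b) (M b))

omit [DecidableEq B] in
theorem Nmap_monomial (m : Var ι →₀ ℕ) (c : K) :
    Nmap M Sp (monomial m c) = c • Pi.single (mod3 m) (fl M Sp m) := by
  have h1 : monomial m c = c • (basisMonomials (Var ι) K m) := by
    rw [coe_basisMonomials, smul_monomial, smul_eq_mul, mul_one]
  rw [h1, map_smul, Nmap, Module.Basis.constr_basis]

theorem Nmap_X3 (v : Var ι) (f : MvPolynomial (Var ι) K) :
    Nmap M Sp (X v ^ 3 * f) = ell M Sp v • Nmap M Sp f := by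
  induction f using MvPolynomial.induction_on' with
  | monomial m c =>
    have h1 : (X v ^ 3 * monomial m c : MvPolynomial (Var ι) K) =
        monomial (Finsupp.single v 3 + m) c := by
      rw [X_pow_eq_monomial, monomial_mul, one_mul]
    have h2 : mod3 (Finsupp.single v 3 + m) = mod3 m := by
      funext u
      apply Fin.ext
      simp only [mod3, Finsupp.add_apply]
      by_cases h : v = u
      · subst h; rw [Finsupp.single_eq_same]; omega
      · rw [Finsupp.single_eq_of_ne (Ne.symm h), zero_add]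
    have h3 : fl M Sp (Finsupp.single v 3 + m) = ell M Sp v * fl M Sp m := by
      unfold fl
      rw [← Finset.mul_prod_erase _ _ (Finset.mem_univ v),
        ← Finset.mul_prod_erase _ (fun u => ell M Sp u ^ (m u / 3)) (Finset.mem_univ v),
        ← mul_assoc]
      congr 1
      · rw [Finsupp.add_apply, Finsupp.single_eq_same, show (3 + m v) / 3 = m v / 3 + 1 by omega,
          pow_succ, mul_comm]
      · refine Finset.prod_congr rfl fun u hu => ?_
        rw [Finsupp.add_apply, Finsupp.single_eq_of_ne (Finset.ne_of_mem_erase hu), zero_add]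
    rw [h1, Nmap_monomial, Nmap_monomial, h2, h3, smul_comm]
    congr 1
    rw [← smul_eq_mul, Pi.single_smul]
  | add p q hp hq => rw [mul_add, map_add, map_add, hp, hq, smul_add]

omit [DecidableEq B] in
theorem Nmap_C (c : K) (f : MvPolynomial (Var ι) K) :
    Nmap M Sp (C c * f) = (C c : Pg K e) • Nmap M Sp f := by
  rw [C_mul', map_smul]
  funext a
  rw [Pi.smul_apply, Pi.smul_apply, smul_eq_mul, C_mul']

theorem Nmap_lin (b : B) (q : ι b → K) (f : MvPolynomial (Var ι) K) :
    Nmap M Sp ((∑ c, C (q c) * X ⟨b, c⟩ ^ 3) * f) =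
      (∑ j : Fin (e b + 1), C (∑ c, q c * (Sp b).L c j) * X ⟨b, j⟩ : Pg K e) • Nmap M Sp f := by
  have h1 : (∑ j : Fin (e b + 1), C (∑ c, q c * (Sp b).L c j) * X ⟨b, j⟩ : Pg K e) =
      ∑ c, C (q c) * ell M Sp ⟨b, c⟩ := by
    unfold ell
    simp only [map_sum, map_mul, Finset.sum_mul, Finset.mul_sum]
    rw [Finset.sum_comm]
    refine Finset.sum_congr rfl fun c _ => Finset.sum_congr rfl fun j _ => ?_
    rw [mul_assoc]
  rw [h1, Finset.sum_mul, map_sum, Finset.sum_smul]
  refine Finset.sum_congr rfl fun c _ => ?_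
  rw [mul_assoc, Nmap_C, Nmap_X3, smul_smul]

theorem Nmap_cubic (b : B) (j : Fin (r b)) (f : MvPolynomial (Var ι) K) :
    Nmap M Sp (f * cubic M b j) = 0 := by
  rw [mul_comm, cubic, Nmap_lin]
  have h1 : ∀ j', ∑ c, M b j c * (Sp b).L c j' = 0 := by
    intro j'
    have h2 := congrFun (congrFun (Sp b).ML j) j'
    rwa [Matrix.mul_apply] at h2
  simp only [h1, map_zero, zero_mul, Finset.sum_const_zero, zero_smul]

theorem Nmap_idl (x : MvPolynomial (Var ι) K) (hx : x ∈ idl M) : Nmap M Sp x = 0 := by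
  have h : ∀ f, Nmap M Sp (f * x) = 0 := by
    refine Submodule.span_induction (p := fun x _ => ∀ f, Nmap M Sp (f * x) = 0) ?_ ?_ ?_ ?_ hx
    · rintro x ⟨b, j, rfl⟩ f
      exact Nmap_cubic M Sp b j f
    · intro f; rw [mul_zero, map_zero]
    · intro x y _ _ hx hy f
      rw [mul_add, map_add, hx, hy, add_zero]
    · intro a x _ hx f
      rw [smul_eq_mul, ← mul_assoc, hx]
  have := h 1
  rwa [one_mul] at this

omit [Fintype B] [DecidableEq B] [∀ b, DecidableEq (ι b)] in
theorem mk_surj (x : Rg M) :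
    Ideal.Quotient.mk (idl M) (Function.surjInv Ideal.Quotient.mk_surjective x) = x :=
  Function.surjInv_eq Ideal.Quotient.mk_surjective x

/-- The normal form on `R`. -/
noncomputable def Nbar : Rg M →ₗ[K] ((Var ι → Fin 3) → Pg K e) where
  toFun x := Nmap M Sp (Function.surjInv Ideal.Quotient.mk_surjective x)
  map_add' x y := by
    rw [← map_add, ← sub_eq_zero, ← map_sub]
    apply Nmap_idl
    rw [← Ideal.Quotient.eq_zero_iff_mem]
    rw [map_sub, map_add, mk_surj, mk_surj, mk_surj, sub_self]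
  map_smul' c x := by
    rw [RingHom.id_apply, ← map_smul, ← sub_eq_zero, ← map_sub]
    apply Nmap_idl
    rw [← Ideal.Quotient.eq_zero_iff_mem, map_sub, mk_surj, sub_eq_zero]
    have h1 : Ideal.Quotient.mk (idl M)
        (c • Function.surjInv Ideal.Quotient.mk_surjective x) = c • Ideal.Quotient.mk (idl M)
        (Function.surjInv Ideal.Quotient.mk_surjective x) := rfl
    rw [h1, mk_surj]

theorem Nbar_mk (f : MvPolynomial (Var ι) K) :
    Nbar M Sp (Ideal.Quotient.mk (idl M) f) = Nmap M Sp f := by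
  change Nmap M Sp (Function.surjInv Ideal.Quotient.mk_surjective _) = _
  rw [← sub_eq_zero, ← map_sub]
  apply Nmap_idl
  rw [← Ideal.Quotient.eq_zero_iff_mem, map_sub, mk_surj, sub_self]

theorem Nbar_psi (p : Pg K e) (x : Rg M) : Nbar M Sp (psi M Sp p * x) = p • Nbar M Sp x := by
  induction p using MvPolynomial.induction_on generalizing x with
  | C c =>
    rw [psi, aeval_C, ← Algebra.smul_def, map_smul]
    funext a
    rw [Pi.smul_apply, Pi.smul_apply, smul_eq_mul, C_mul']
  | add p q hp hq => rw [map_add, add_mul, map_add, hp, hq, add_smul]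
  | mul_X p q hp =>
    rw [map_mul (psi M Sp), mul_assoc, hp, mul_smul]
    congr 1
    obtain ⟨f, rfl⟩ := Ideal.Quotient.mk_surjective x
    obtain ⟨b, j⟩ := q
    rw [psi, aeval_X, ← map_mul, Nbar_mk, Nmap_lin, Nbar_mk]
    congr 1
    have h1 : ∀ j', ∑ c, (Sp b).Q j c * (Sp b).L c j' = (1 : Matrix _ _ K) j j' := by
      intro j'
      have h2 := congrFun (congrFun (Sp b).QL j) j'
      rwa [Matrix.mul_apply] at h2
    simp only [h1]
    rw [Finset.sum_eq_single j]
    · rw [Matrix.one_apply_eq, map_one, one_mul]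
    · intro j' _ hj'
      rw [Matrix.one_apply_ne' hj', map_zero, zero_mul]
    · intro h; exact absurd (Finset.mem_univ _) h

omit [DecidableEq B] [∀ b, DecidableEq (ι b)] in
theorem prod_X (m : Var ι → ℕ) :
    (∏ v, X v ^ m v : MvPolynomial (Var ι) K) = monomial (Finsupp.equivFunOnFinite.symm m) 1 := by
  rw [monomial_eq, C_1, one_mul, Finsupp.prod_fintype]
  · rfl
  · intro i; rw [pow_zero]

theorem Nbar_Xa (a : Var ι → Fin 3) : Nbar M Sp (Xa M a) = Pi.single a 1 := by
  rw [Xa, Nbar_mk, prod_X, Nmap_monomial, one_smul]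
  have h1 : mod3 (Finsupp.equivFunOnFinite.symm fun v => (a v : ℕ)) = a := by
    funext v
    apply Fin.ext
    simp only [mod3, Finsupp.equivFunOnFinite_symm_apply_apply]
    exact Nat.mod_eq_of_lt (a v).isLt
  have h2 : fl M Sp (Finsupp.equivFunOnFinite.symm fun v => (a v : ℕ)) = 1 := by
    unfold fl
    refine Finset.prod_eq_one fun v _ => ?_
    rw [Finsupp.equivFunOnFinite_symm_apply_apply, Nat.div_eq_of_lt (a v).isLt, pow_zero]
  rw [h1, h2]

theorem Nbar_sum (p : (Var ι → Fin 3) → Pg K e) :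
    Nbar M Sp (∑ a, psi M Sp (p a) * Xa M a) = p := by
  rw [map_sum]
  conv_rhs => rw [← Finset.univ_sum_single p]
  refine Finset.sum_congr rfl fun a _ => ?_
  rw [Nbar_psi, Nbar_Xa, ← Pi.single_smul, smul_eq_mul, mul_one]

theorem sum_Nmap (f : MvPolynomial (Var ι) K) :
    Ideal.Quotient.mk (idl M) f = ∑ a, psi M Sp (Nmap M Sp f a) * Xa M a := by
  induction f using MvPolynomial.induction_on' with
  | monomial m c =>
    rw [Nmap_monomial, Finset.sum_eq_single (mod3 m)]
    · have h0 : psi M Sp (∏ v, ell M Sp v ^ (m v / 3)) =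
          Ideal.Quotient.mk (idl M) (∏ v, (X v ^ 3) ^ (m v / 3)) := by
        rw [map_prod, map_prod]
        refine Finset.prod_congr rfl fun v _ => ?_
        rw [map_pow (psi M Sp), psi_ell, ← map_pow]
      rw [Pi.smul_apply, Pi.single_eq_same, fl, map_smul, h0, Xa, smul_mul_assoc, ← map_mul,
        ← Finset.prod_mul_distrib]
      change _ = Ideal.Quotient.mk (idl M) (c • _)
      congr 1
      rw [monomial_eq, C_mul', Finsupp.prod_fintype _ _ (fun i => pow_zero _)]
      congr 1
      refine Finset.prod_congr rfl fun v _ => ?_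
      rw [← pow_mul, ← pow_add]
      congr 1
      simp only [mod3]
      omega
    · intro a _ ha
      rw [Pi.smul_apply, Pi.single_eq_of_ne ha, smul_zero, map_zero, zero_mul]
    · intro h; exact absurd (Finset.mem_univ _) h
  | add p q hp hq =>
    rw [map_add, hp, hq, ← Finset.sum_add_distrib]
    refine Finset.sum_congr rfl fun a _ => ?_
    rw [map_add, Pi.add_apply, map_add, add_mul]

theorem sum_Nbar (x : Rg M) : x = ∑ a, psi M Sp (Nbar M Sp x a) * Xa M a := by
  obtain ⟨f, rfl⟩ := Ideal.Quotient.mk_surjective x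
  rw [Nbar_mk]
  exact sum_Nmap M Sp f

theorem Nbar_injective : Function.Injective (Nbar M Sp) := fun x y h => by
  rw [sum_Nbar M Sp x, sum_Nbar M Sp y, h]

theorem free_P (x : Rg M) :
    ∃! p : (Var ι → Fin 3) → Pg K e, x = ∑ a, psi M Sp (p a) * Xa M a := by
  refine ⟨Nbar M Sp x, sum_Nbar M Sp x, fun p hp => ?_⟩
  rw [hp, Nbar_sum]

end general

end Pool.Agent.T9h31.NA
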