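import Pool.Agent.T9h22.RS.Data
import Pool.Agent.T9h46.NA.Emb
import Pool.Agent.T9h46.NA.Pair
import Pool.Agent.T9h40.NA.GMat
import Pool.Agent.T9h31.NA.AtPrime
import Pool.Agent.T9h31.NA.Graded

/-!
# Facts on `T`, `U`, `Ψ` and monomials in the fraction field of `S`
-/

set_option linter.unusedSectionVars false

namespace Pool.Agent.T9h31.NA

open MvPolynomial KaehlerDifferential Pool.Agent.T9h29.NA Pool.Agent.T9h22.RS

universe u

variable {K : Type u} [Field K] {B : Type} [Fintype B]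
  [DecidableEq B] {ι : B → Type} [∀ b, Fintype (ι b)] [∀ b, DecidableEq (ι b)] {r e : B → ℕ}
  (M : ∀ b, Matrix (Fin (r b)) (ι b) K) {A : Type*} [AddCommGroup A] (w : Var ι → A)

/-- the class of a monomial -/
noncomputable def mon (m : Var ι →₀ ℕ) : Rg M := Ideal.Quotient.mk (idl M) (monomial m 1)

theorem mon_mem_Sn {m : Var ι →₀ ℕ} {n : ℕ} (hm : m ∈ Good w n) : mon M m ∈ Sn M w n := by
  refine ⟨monomial m 1, ?_, rfl⟩
  rw [SetLike.mem_coe, mem_restrictSupport_iff]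
  intro m' hm'
  rw [coeff_monomial] at hm'
  have : m = m' := by
    by_contra h
    rw [if_neg h] at hm'
    exact hm' rfl
  rwa [← this]

theorem mon_mem {m : Var ι →₀ ℕ} {n : ℕ} (hm : m ∈ Good w n) : mon M m ∈ Stot M w :=
  Sn_le M w n (mon_mem_Sn M w hm)

/-! ### Splitting of products -/

/-- The coordinates which are not in the reference set. -/
abbrev Rest (ch : ∀ b, Fin (e b + 1) ↪ ι b) : Type :=
  {v : Var ι // v.2 ∉ Set.range (ch v.1)}

noncomputable instance (ch : ∀ b, Fin (e b + 1) ↪ ι b) : Fintype (Rest ch) :=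
  open scoped Classical in inferInstance

theorem embI_injective (ch : ∀ b, Fin (e b + 1) ↪ ι b) :
    Function.Injective (fun p : (Σ b, Fin (e b + 1)) => (⟨p.1, ch p.1 p.2⟩ : Var ι)) := by
  rintro ⟨b, k⟩ ⟨b', k'⟩ h
  simp only [Sigma.mk.injEq] at h
  obtain ⟨rfl, h⟩ := h
  rw [(ch b).injective (eq_of_heq h)]

/-- The reference coordinates. -/
def embI (ch : ∀ b, Fin (e b + 1) ↪ ι b) : (Σ b, Fin (e b + 1)) ↪ Var ι :=
  ⟨fun p => ⟨p.1, ch p.1 p.2⟩, embI_injective ch⟩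

theorem embI_apply (ch : ∀ b, Fin (e b + 1) ↪ ι b) (p : Σ b, Fin (e b + 1)) :
    embI ch p = ⟨p.1, ch p.1 p.2⟩ := rfl

theorem prod_split {G : Type*} [CommMonoid G] (ch : ∀ b, Fin (e b + 1) ↪ ι b) (g : Var ι → G)
    (h1 : ∀ b, g ⟨b, ch b 0⟩ = 1) :
    ∏ v, g v = (∏ p : (Σ b, Fin (e b)), g ⟨p.1, ch p.1 p.2.succ⟩) * ∏ j : Rest ch, g j.1 := by
  classical
  rw [← Finset.prod_filter_mul_prod_filter_not Finset.univ
    (fun v : Var ι => v.2 ∈ Set.range (ch v.1)) g]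
  congr 1
  · have h2 : (Finset.univ.filter fun v : Var ι => v.2 ∈ Set.range (ch v.1)) =
        Finset.univ.map (embI ch) := by
      ext v
      simp only [Finset.mem_filter, Finset.mem_univ, true_and, Set.mem_range, Finset.mem_map,
        embI_apply]
      constructor
      · rintro ⟨k, hk⟩
        exact ⟨⟨v.1, k⟩, by simp only [hk]⟩
      · rintro ⟨q, rfl⟩
        exact ⟨q.2, rfl⟩
    rw [h2, Finset.prod_map, Fintype.prod_sigma, Fintype.prod_sigma]
    refine Finset.prod_congr rfl fun b _ => ?_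
    rw [Fin.prod_univ_succ]
    simp only [embI_apply]
    rw [h1, one_mul]
  · exact Finset.prod_subtype _ (fun v => by simp) g

/-! ### Embeddings with prescribed values -/

theorem exists_emb_of_card {κ : Type} [Fintype κ] [DecidableEq κ] {e : ℕ}
    (hc : e + 1 ≤ Fintype.card κ) (c : κ) (s : Finset κ) (hs : c ∉ s) (hse : s.card ≤ e) :
    ∃ i : Fin (e + 1) ↪ κ, i 0 = c ∧ ∀ c' ∈ s, c' ∈ Set.range i := by
  obtain ⟨t, hst, htu, htc⟩ := Finset.exists_subsuperset_card_eq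
    (s := s) (t := Finset.univ.erase c) (n := e)
    (fun x hx => Finset.mem_erase.2 ⟨by rintro rfl; exact hs hx, Finset.mem_univ _⟩) hse
    (by rw [Finset.card_erase_of_mem (Finset.mem_univ c), Finset.card_univ]; omega)
  have hct : c ∉ t := fun h => (Finset.mem_erase.1 (htu h)).1 rfl
  let g : Fin e ≃ t := (t.equivFinOfCardEq htc).symm
  refine ⟨⟨Fin.cons c fun k => (g k : κ), ?_⟩, rfl, fun c' hc' => ?_⟩
  · rw [Fin.cons_injective_iff]
    refine ⟨?_, fun k k' h => g.injective (Subtype.ext h)⟩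
    rintro ⟨k, hk⟩
    exact hct (hk ▸ (g k).2)
  · refine ⟨(g.symm ⟨c', hst hc'⟩).succ, ?_⟩
    simp

section frac

variable [IsDomain (Rg M)]

/-- Cubes of the coordinates in `R`. -/
noncomputable def cb (v : Var ι) : Rg M := Ideal.Quotient.mk (idl M) (X v ^ 3)

theorem algebraMap_cb (v : Var ι) : algebraMap (Rg M) (ER M) (cb M v) = xE M v ^ 3 := by
  rw [cb, xE, map_pow, map_pow]

theorem algebraMap_mon (m : Var ι →₀ ℕ) :
    algebraMap (Rg M) (ER M) (mon M m) = ∏ v, xE M v ^ m v := by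
  rw [mon, monomial_eq, C_1, one_mul, Finsupp.prod_fintype _ _ (by intro i; exact pow_zero _),
    map_prod, map_prod]
  refine Finset.prod_congr rfl fun v _ => ?_
  rw [map_pow, map_pow, xE]

end frac

/-- `∏_b X_{c_b}^3`. -/
noncomputable def tR (c : ∀ b, ι b) : Rg M := ∏ b, Ideal.Quotient.mk (idl M) (X ⟨b, c b⟩ ^ 3)

/-- `∏_{b ≠ b₀} X_{c_b}^3`. -/
noncomputable def aR (c : ∀ b, ι b) (b₀ : B) : Rg M :=
  ∏ b ∈ Finset.univ.erase b₀, Ideal.Quotient.mk (idl M) (X ⟨b, c b⟩ ^ 3)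

theorem aR_mul (c : ∀ b, ι b) (b₀ : B) :
    aR M c b₀ * Ideal.Quotient.mk (idl M) (X ⟨b₀, c b₀⟩ ^ 3) = tR M c := by
  unfold aR tR
  have h := Finset.mul_prod_erase Finset.univ
    (fun b => Ideal.Quotient.mk (idl M) (X (⟨b, c b⟩ : Var ι) ^ 3)) (Finset.mem_univ b₀)
  rw [← h]
  exact mul_comm _ _

theorem isWH_X3 (hw : ∀ v, 3 • w v = 0) (v : Var ι) :
    IsWeightedHomogeneous (wX w) (X v ^ 3 : MvPolynomial (Var ι) K)
      (((3 • Pi.single v.1 1 : B → ℕ), (0 : A)) : (B → ℕ) × A) := by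
  have h1 := (isWeightedHomogeneous_X K (wX w) v).pow 3
  have h2 : (((3 • Pi.single v.1 1 : B → ℕ), (0 : A)) : (B → ℕ) × A) = 3 • wX w v := by
    rw [wX, Prod.smul_mk, hw]
  rw [h2]
  exact h1

theorem cb_mul_aR_mem (hw : ∀ v, 3 • w v = 0) (c : ∀ b, ι b) (v : Var ι) :
    Ideal.Quotient.mk (idl M) (X v ^ 3) * aR M c v.1 ∈ Sn M w 3 := by
  refine ⟨X v ^ 3 * ∏ b ∈ Finset.univ.erase v.1, X (⟨b, c b⟩ : Var ι) ^ 3, ?_, ?_⟩
  · rw [SetLike.mem_coe, ← isWH_iff_good]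
    have h1 := (isWH_X3 (K := K) w hw v).mul (IsWeightedHomogeneous.prod
      (Finset.univ.erase v.1) (fun b => X (⟨b, c b⟩ : Var ι) ^ 3) _
      (fun b _ => isWH_X3 (K := K) w hw ⟨b, c b⟩))
    have h2 : (((fun _ => 3 : B → ℕ), (0 : A)) : (B → ℕ) × A) =
        ((3 • Pi.single v.1 1 : B → ℕ), (0 : A)) + ∑ b ∈ Finset.univ.erase v.1,
          (((3 • Pi.single b 1 : B → ℕ), (0 : A)) : (B → ℕ) × A) := ?_
    · rw [h2]; exact h1
    apply Prod.ext
    · rw [Prod.fst_add, Prod.fst_sum]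
      change (fun _ => 3) = 3 • Pi.single v.1 1 + ∑ b ∈ Finset.univ.erase v.1, 3 • Pi.single b 1
      refine Eq.trans ?_ (Finset.add_sum_erase _ (fun b => (3 • Pi.single b 1 : B → ℕ))
        (Finset.mem_univ v.1)).symm
      funext b
      rw [Finset.sum_apply, Finset.sum_eq_single b]
      · simp
      · intro b' _ hb'
        simp [Pi.single_eq_of_ne (Ne.symm hb')]
      · intro h; exact absurd (Finset.mem_univ _) h
    · rw [Prod.snd_add, Prod.snd_sum]
      simp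
  · change Ideal.Quotient.mk (idl M) _ = _
    rw [map_mul, map_prod, aR]

theorem tR_mem [Nonempty B] (hw : ∀ v, 3 • w v = 0) (c : ∀ b, ι b) : tR M c ∈ Sn M w 3 := by
  obtain ⟨b⟩ := ‹Nonempty B›
  rw [← aR_mul M c b, mul_comm]
  exact cb_mul_aR_mem M w hw c ⟨b, c b⟩

end Pool.Agent.T9h31.NA
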