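import Pool.Agent.T9h29.NA.Defs

/-!
# MP_954e53_ag.NegativeAnswer, part (4): splittings and cubes
-/

namespace Pool.Agent.T9h31.NA

open MvPolynomial Pool.Agent.T9h29.NA

universe u

theorem exists_split {K : Type u} [Field K] {r e : ℕ} {κ : Type} [Fintype κ] [DecidableEq κ]
    (M : Matrix (Fin r) κ K)
    (hM : AllMinors M) (hc : Fintype.card κ = r + (e + 1)) : Nonempty (Split (e := e) M) := by
  classical
  -- an injection `Fin r → κ`
  obtain ⟨f⟩ : Nonempty (Fin r ↪ κ) := by
    apply Function.Embedding.nonempty_of_card_le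
    rw [Fintype.card_fin]; omega
  have hdet := hM f f.injective
  set M₀ := M.submatrix id f with hM₀
  have hunit : IsUnit M₀.det := isUnit_iff_ne_zero.2 hdet
  -- the right inverse
  let Z : Matrix κ (Fin r) K := (Matrix.of fun c i => if f i = c then (1 : K) else 0) * M₀⁻¹
  have hMZ : M * Z = 1 := by
    have h1 : M * (Matrix.of fun c i => if f i = c then (1 : K) else 0) = M₀ := by
      ext i j
      simp [Matrix.mul_apply, hM₀]
    rw [show M * Z = M * ((Matrix.of fun c i => if f i = c then (1 : K) else 0) * M₀⁻¹) from rfl,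
      ← Matrix.mul_assoc, h1, Matrix.mul_nonsing_inv _ hunit]
  -- the kernel
  let T : (κ → K) →ₗ[K] (Fin r → K) := Matrix.toLin' M
  have hsurj : Function.Surjective T := by
    intro y
    refine ⟨Matrix.toLin' Z y, ?_⟩
    rw [← LinearMap.comp_apply, ← Matrix.toLin'_mul, hMZ, Matrix.toLin'_one, LinearMap.id_apply]
  have hker : Module.finrank K (LinearMap.ker T) = e + 1 := by
    have h1 := LinearMap.finrank_range_add_finrank_ker T
    rw [LinearMap.range_eq_top.2 hsurj, finrank_top, Module.finrank_fin_fun,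
      Module.finrank_fintype_fun_eq_card, hc] at h1
    omega
  let bs : Module.Basis (Fin (e + 1)) K (LinearMap.ker T) := Module.finBasisOfFinrankEq K _ hker
  -- the projection
  let Pr : (κ → K) →ₗ[K] LinearMap.ker T :=
    LinearMap.codRestrict (LinearMap.ker T) (LinearMap.id - Matrix.toLin' (Z * M)) (by
      intro x
      rw [LinearMap.mem_ker, LinearMap.sub_apply, map_sub, LinearMap.id_apply, sub_eq_zero,
        ← LinearMap.comp_apply, ← Matrix.toLin'_mul, ← Matrix.mul_assoc, hMZ, Matrix.one_mul])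
  let Lm : (Fin (e + 1) → K) →ₗ[K] (κ → K) := (LinearMap.ker T).subtype ∘ₗ bs.equivFun.symm.toLinearMap
  let Qm : (κ → K) →ₗ[K] (Fin (e + 1) → K) := bs.equivFun.toLinearMap ∘ₗ Pr
  refine ⟨⟨LinearMap.toMatrix' Lm, LinearMap.toMatrix' Qm, Z, ?_, ?_, ?_⟩⟩
  · apply Matrix.toLin'.injective
    rw [Matrix.toLin'_mul, Matrix.toLin'_toMatrix', map_zero]
    ext1 x
    ext1
    simp only [LinearMap.comp_apply, LinearMap.zero_apply]
    exact LinearMap.mem_ker.1 (bs.equivFun.symm _).2
  · apply Matrix.toLin'.injective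
    rw [Matrix.toLin'_mul, Matrix.toLin'_toMatrix', Matrix.toLin'_toMatrix', Matrix.toLin'_one]
    apply LinearMap.ext
    intro x
    have h1 : Pr (Lm x) = bs.equivFun.symm x := by
      apply Subtype.ext
      have h2 : T (bs.equivFun.symm x : κ → K) = 0 := LinearMap.mem_ker.1 (bs.equivFun.symm x).2
      change ((LinearMap.id : (κ → K) →ₗ[K] (κ → K)) - Matrix.toLin' (Z * M))
        ((bs.equivFun.symm x : κ → K)) = _
      rw [LinearMap.sub_apply, LinearMap.id_apply, Matrix.toLin'_mul, LinearMap.comp_apply]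
      change _ - Matrix.toLin' Z (T _) = _
      rw [h2, map_zero, sub_zero]
    change bs.equivFun (Pr (Lm x)) = x
    rw [h1, LinearEquiv.apply_symm_apply]
  · apply Matrix.toLin'.injective
    rw [map_sub, Matrix.toLin'_mul, Matrix.toLin'_toMatrix', Matrix.toLin'_toMatrix',
      Matrix.toLin'_one]
    apply LinearMap.ext
    intro x
    rw [LinearMap.sub_apply, LinearMap.id_apply]
    have h1 : (Lm ∘ₗ Qm) x = x - Matrix.toLin' (Z * M) x := by
      change ((bs.equivFun.symm (bs.equivFun (Pr x)) : LinearMap.ker T) : κ → K) = _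
      rw [LinearEquiv.symm_apply_apply]
      rfl
    rw [h1]; abel

variable {K : Type u} [Field K] {B : Type} [Fintype B] [DecidableEq B] {ι : B → Type}
  [∀ b, Fintype (ι b)] [∀ b, DecidableEq (ι b)] {r e : B → ℕ}

omit [Fintype B] [DecidableEq B] [∀ b, DecidableEq (ι b)] in
theorem mk_cubic (M : ∀ b, Matrix (Fin (r b)) (ι b) K) (b : B) (j : Fin (r b)) :
    Ideal.Quotient.mk (idl M) (cubic M b j) = 0 :=
  Ideal.Quotient.eq_zero_iff_mem.2 (Ideal.subset_span ⟨b, j, rfl⟩)

omit [Fintype B] [DecidableEq B] in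
theorem psi_ell (M : ∀ b, Matrix (Fin (r b)) (ι b) K) (Sp : ∀ b, Split (e := e b) (M b))
    (v : Var ι) : psi M Sp (ell M Sp v) = Ideal.Quotient.mk (idl M) (X v ^ 3) := by
  obtain ⟨b, c⟩ := v
  have h1 : psi M Sp (ell M Sp ⟨b, c⟩) = Ideal.Quotient.mk (idl M)
      (∑ c', C (((Sp b).L * (Sp b).Q) c c') * X ⟨b, c'⟩ ^ 3) := by
    unfold psi ell
    simp only [map_sum, map_mul, aeval_X, aeval_C, map_pow, Matrix.mul_apply, Finset.sum_mul,
      Finset.mul_sum]
    rw [Finset.sum_comm]
    refine Finset.sum_congr rfl fun c' _ => Finset.sum_congr rfl fun j _ => ?_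
    rw [mul_assoc]
    rfl
  have h2 : (Sp b).L * (Sp b).Q = 1 - (Sp b).Z * M b := by
    rw [← (Sp b).LQ]; abel
  have h3 : (∑ c', C (((Sp b).L * (Sp b).Q) c c') * X (⟨b, c'⟩ : Var ι) ^ 3 :
      MvPolynomial (Var ι) K) = X ⟨b, c⟩ ^ 3 - ∑ j, C ((Sp b).Z c j) * cubic M b j := by
    rw [h2]
    simp only [Matrix.sub_apply, map_sub, sub_mul, Finset.sum_sub_distrib]
    congr 1
    · rw [Finset.sum_eq_single c]
      · simp
      · intro c' _ hc'
        rw [Matrix.one_apply_ne' hc', map_zero, zero_mul]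
      · intro h; exact absurd (Finset.mem_univ _) h
    · unfold cubic
      simp only [Matrix.mul_apply, map_sum, Finset.sum_mul, Finset.mul_sum, map_mul]
      rw [Finset.sum_comm]
      refine Finset.sum_congr rfl fun j _ => Finset.sum_congr rfl fun c' _ => ?_
      rw [mul_assoc]
  rw [h1, h3, map_sub, map_sum, sub_eq_self]
  refine Finset.sum_eq_zero fun j _ => ?_
  rw [map_mul, mk_cubic, mul_zero]

end Pool.Agent.T9h31.NA
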