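import Pool.Agent.T9h31.NA.Facts
import Pool.Agent.T9h31.NA.HtOne

/-!
# MP_954e53_ag.NegativeAnswer, rational singularities, step (C): primes of height one
-/

set_option linter.unusedSectionVars false

namespace Pool.Agent.T9h31.NA

open MvPolynomial KaehlerDifferential Pool.Agent.T9h29.NA Pool.Agent.T9h22.RS

universe u

variable {K : Type u} [Field K] {B : Type} [Fintype B]
  [DecidableEq B] {ι : B → Type} [∀ b, Fintype (ι b)] [∀ b, DecidableEq (ι b)] {r e : B → ℕ}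
  (M : ∀ b, Matrix (Fin (r b)) (ι b) K) {A : Type*} [AddCommGroup A] (w : Var ι → A)

/-! ### Elements of `S` -/

/-- `T` in `S`. -/
noncomputable def tS [Nonempty B] (hw : ∀ v, 3 • w v = 0) (c : ∀ b, ι b) : Stot M w :=
  ⟨tR M c, Sn_le M w 3 (tR_mem M w hw c)⟩

/-- `T U_v` in `S`. -/
noncomputable def uS (hw : ∀ v, 3 • w v = 0) (c : ∀ b, ι b) (v : Var ι) : Stot M w :=
  ⟨Ideal.Quotient.mk (idl M) (X v ^ 3) * aR M c v.1, Sn_le M w 3 (cb_mul_aR_mem M w hw c v)⟩

theorem uS_ref [Nonempty B] (hw : ∀ v, 3 • w v = 0) (c : ∀ b, ι b) (b : B) :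
    uS M w hw c ⟨b, c b⟩ = tS M w hw c := by
  apply Subtype.ext
  change Ideal.Quotient.mk (idl M) (X (⟨b, c b⟩ : Var ι) ^ 3) * aR M c b = tR M c
  rw [mul_comm, aR_mul]

theorem tR_eq (c : ∀ b, ι b) :
    tR M c = mon M (Pool.Agent.T9h46.NA.expc (fun _ => 3) c) := by
  rw [mon, Pool.Agent.T9h46.NA.mk_monomial, Pool.Agent.T9h46.NA.prod_expc, tR]
  refine Finset.prod_congr rfl fun b _ => ?_
  rw [map_pow]

theorem mon_mul (m m' : Var ι →₀ ℕ) : mon M m * mon M m' = mon M (m + m') := by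
  rw [mon, mon, mon, ← map_mul, monomial_mul, one_mul]

theorem mon_pow (m : Var ι →₀ ℕ) (k : ℕ) : mon M m ^ k = mon M (k • m) := by
  rw [mon, mon, ← map_pow, monomial_pow, one_pow]

theorem bdeg_add' (m m' : Var ι →₀ ℕ) (b : B) : bdeg (m + m') b = bdeg m b + bdeg m' b := by
  unfold bdeg
  rw [← Finset.sum_add_distrib]
  rfl

theorem wgt_add' (m m' : Var ι →₀ ℕ) : wgt w (m + m') = wgt w m + wgt w m' := by
  unfold wgt
  rw [← Finset.sum_add_distrib]
  refine Finset.sum_congr rfl fun v _ => ?_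
  rw [Finsupp.add_apply, add_smul]

/-- If a monomial of positive degree is not in `p`, then some `T` is not in `p`. -/
theorem exists_T [Nonempty B] (hw : ∀ v, 3 • w v = 0) (p : Ideal (Stot M w)) [hp : p.IsPrime]
    (hbp : ∃ n, 0 < n ∧ ∃ m, ∃ hm : m ∈ Good w n, (⟨mon M m, mon_mem M w hm⟩ : Stot M w) ∉ p) :
    ∃ c : ∀ b, ι b, tS M w hw c ∉ p := by
  obtain ⟨n, hn, m, hm, hmp⟩ := hbp
  have h1 : ∀ b, ∃ c : ι b, 1 ≤ m ⟨b, c⟩ := by
    intro b
    by_contra h
    push Not at h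
    have h2 : bdeg m b = 0 := Finset.sum_eq_zero fun c _ => by have := h c; omega
    rw [hm.1 b] at h2
    omega
  choose c hc using h1
  refine ⟨c, fun hT => hmp ?_⟩
  set ex := Pool.Agent.T9h46.NA.expc (fun _ => 3) c with hex
  have hle : ex ≤ 3 • m := by
    intro v
    rw [hex, Pool.Agent.T9h46.NA.expc_apply, Finsupp.smul_apply, smul_eq_mul]
    split_ifs with h
    · have := hc v.1
      rw [← h] at this
      have h2 : m v = m ⟨v.1, v.2⟩ := rfl
      omega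
    · exact Nat.zero_le _
  have hadd : ex + (3 • m - ex) = 3 • m := add_tsub_cancel_of_le hle
  have hg : 3 • m - ex ∈ Good w (3 * n - 3) := by
    constructor
    · intro b
      have h2 := congrArg (fun x => bdeg x b) hadd
      simp only [bdeg_add'] at h2
      rw [hex, Pool.Agent.T9h46.NA.bdeg_expc, ← hex] at h2
      have h3 : bdeg (3 • m) b = 3 * n := by
        rw [← hm.1 b]
        unfold bdeg
        rw [Finset.mul_sum]
        rfl
      rw [h3] at h2
      omega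
    · have h2 := congrArg (fun x => wgt w x) hadd
      simp only [wgt_add'] at h2
      have h0 : wgt w ex = 0 := by
        have h3 := Pool.Agent.T9h46.NA.wgt_expc w hw (fun _ => 1) c
        simp only [mul_one] at h3
        exact h3
      rw [h0, zero_add] at h2
      rw [h2]
      unfold wgt
      refine Finset.sum_eq_zero fun v _ => ?_
      rw [Finsupp.smul_apply, smul_eq_mul, mul_smul, smul_comm, hw, smul_zero]
  have hprod : tS M w hw c * ⟨mon M (3 • m - ex), mon_mem M w hg⟩ =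
      (⟨mon M m, mon_mem M w hm⟩ : Stot M w) ^ 3 := by
    apply Subtype.ext
    change tR M c * mon M (3 • m - ex) = mon M m ^ 3
    rw [tR_eq, mon_mul, ← hex, hadd, mon_pow]
  have h4 : (⟨mon M m, mon_mem M w hm⟩ : Stot M w) ^ 3 ∈ p := by
    rw [← hprod]
    exact p.mul_mem_right _ hT
  exact hp.mem_of_pow_mem _ h4

/-! ### Identities in `F` -/

section frac

variable [IsDomain (Rg M)]
  (hM : ∀ b, AllMinors (M b)) (hc : ∀ b, Fintype.card (ι b) = 3 * r b + 1)
  (hr : ∀ b, 1 ≤ r b) (hw : ∀ v, 3 • w v = 0) (ch : ∀ b, Fin (e b + 1) ↪ ι b)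

include hM hc hr hw

theorem T_ne_zero : T M w ch ≠ 0 := by
  intro h
  have h1 := Pool.Agent.T9h46.NA.emb_T M w hM hc hr hw ch
  rw [h, map_zero] at h1
  exact Finset.prod_ne_zero_iff.2
    (fun b _ => pow_ne_zero _ (Pool.Agent.T9h46.NA.xE_ne_zero M hM hc hr _)) h1.symm

theorem U_ne_zero (v : Var ι) : U M w ch v ≠ 0 := by
  intro h
  have h1 := Pool.Agent.T9h46.NA.emb_U M w hM hc hr hw ch v
  rw [h, map_zero] at h1
  exact div_ne_zero (pow_ne_zero _ (Pool.Agent.T9h46.NA.xE_ne_zero M hM hc hr _))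
    (pow_ne_zero _ (Pool.Agent.T9h46.NA.xE_ne_zero M hM hc hr _)) h1.symm

theorem U_ref (b : B) : U M w ch ⟨b, ch b 0⟩ = 1 := by
  apply emb_injective M w
  rw [Pool.Agent.T9h46.NA.emb_U M w hM hc hr hw, map_one, div_self]
  exact pow_ne_zero _ (Pool.Agent.T9h46.NA.xE_ne_zero M hM hc hr _)

theorem T_eq [Nonempty B] :
    T M w ch = algebraMap (Stot M w) (FS M w) (tS M w hw fun b => ch b 0) := by
  apply emb_injective M w
  rw [Pool.Agent.T9h46.NA.emb_T M w hM hc hr hw, emb_algebraMap]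
  change _ = algebraMap (Rg M) (ER M) (tR M _)
  rw [tR, map_prod]
  refine Finset.prod_congr rfl fun b _ => ?_
  exact (algebraMap_cb M _).symm

theorem T_mul_U (v : Var ι) :
    T M w ch * U M w ch v =
      algebraMap (Stot M w) (FS M w) (uS M w hw (fun b => ch b 0) v) := by
  apply emb_injective M w
  rw [map_mul, Pool.Agent.T9h46.NA.emb_T M w hM hc hr hw,
    Pool.Agent.T9h46.NA.emb_U M w hM hc hr hw, emb_algebraMap]
  change _ = algebraMap (Rg M) (ER M) (_ * aR M _ _)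
  rw [map_mul, aR, map_prod]
  have h1 : algebraMap (Rg M) (ER M) (Ideal.Quotient.mk (idl M) (X v ^ 3)) = xE M v ^ 3 :=
    algebraMap_cb M v
  have h2 : ∀ b, algebraMap (Rg M) (ER M) (Ideal.Quotient.mk (idl M)
      (X (⟨b, ch b 0⟩ : Var ι) ^ 3)) = xE M ⟨b, ch b 0⟩ ^ 3 := fun b => algebraMap_cb M _
  rw [h1]
  simp only [h2]
  have h3 := Finset.mul_prod_erase Finset.univ (fun b => xE M (⟨b, ch b 0⟩ : Var ι) ^ 3)
    (Finset.mem_univ v.1)
  rw [← h3]
  have h4 := pow_ne_zero 3 (Pool.Agent.T9h46.NA.xE_ne_zero M hM hc hr (⟨v.1, ch v.1 0⟩ : Var ι))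
  have h5 : ∀ a P x : ER M, a ≠ 0 → a * P * (x / a) = x * P := by
    intro a P x ha
    field_simp
  exact h5 _ _ _ h4

theorem mon_cube {m : Var ι →₀ ℕ} {n : ℕ} (hm : m ∈ Good w n) :
    algebraMap (Stot M w) (FS M w) ⟨mon M m, mon_mem M w hm⟩ ^ 3 =
      T M w ch ^ n * ∏ v, U M w ch v ^ m v := by
  apply emb_injective M w
  rw [map_pow, emb_algebraMap, map_mul, map_pow, map_prod,
    Pool.Agent.T9h46.NA.emb_T M w hM hc hr hw]
  simp only [map_pow, Pool.Agent.T9h46.NA.emb_U M w hM hc hr hw]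
  rw [algebraMap_mon, ← Finset.prod_pow]
  have h1 : (∏ b, xE M (⟨b, ch b 0⟩ : Var ι) ^ 3) ^ n =
      ∏ v : Var ι, (xE M ⟨v.1, ch v.1 0⟩ ^ 3) ^ m v := by
    rw [Fintype.prod_sigma, ← Finset.prod_pow]
    refine Finset.prod_congr rfl fun b _ => ?_
    change _ = ∏ y : ι b, (xE M (⟨b, ch b 0⟩ : Var ι) ^ 3) ^ m ⟨b, y⟩
    rw [Finset.prod_pow_eq_pow_sum]
    congr 1
    exact (hm.1 b).symm
  rw [h1, ← Finset.prod_mul_distrib]
  refine Finset.prod_congr rfl fun v _ => ?_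
  have h4 := pow_ne_zero 3 (Pool.Agent.T9h46.NA.xE_ne_zero M hM hc hr (⟨v.1, ch v.1 0⟩ : Var ι))
  rw [← mul_pow, mul_div_cancel₀ _ h4, ← pow_mul, ← pow_mul, mul_comm]

theorem Psi_cube (hsum : ∀ b, ∑ c, w ⟨b, c⟩ = 0) :
    Psi M w ch ^ 3 = T M w ch / (∏ v, U M w ch v) ^ 2 := by
  apply emb_injective M w
  rw [map_pow, map_div₀, map_pow, map_prod, Pool.Agent.T9h46.NA.emb_T M w hM hc hr hw,
    Pool.Agent.T9h46.NA.emb_Psi M w hM hc hr hw hsum]
  simp only [Pool.Agent.T9h46.NA.emb_U M w hM hc hr hw]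
  have hx := Pool.Agent.T9h46.NA.xE_ne_zero M hM hc hr
  rw [Finset.prod_div_distrib]
  have h1 : (∏ v : Var ι, xE M ⟨v.1, ch v.1 0⟩ ^ 3) =
      ∏ b, (xE M (⟨b, ch b 0⟩ : Var ι) ^ 3) ^ (3 * r b + 1) := by
    rw [Fintype.prod_sigma]
    refine Finset.prod_congr rfl fun b _ => ?_
    change ∏ _y : ι b, xE M (⟨b, ch b 0⟩ : Var ι) ^ 3 = _
    rw [Finset.prod_const, Finset.card_univ, hc]
  rw [h1, div_pow, div_pow, div_div_eq_mul_div, ← Finset.prod_pow, ← Finset.prod_pow,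
    ← Finset.prod_pow, ← Finset.prod_mul_distrib, ← Finset.prod_pow]
  congr 1
  · refine Finset.prod_congr rfl fun b _ => ?_
    rw [← pow_mul, ← pow_mul, ← pow_mul, ← pow_add]
    congr 1
    ring
  · refine Finset.prod_congr rfl fun v _ => ?_
    rw [← pow_mul, ← pow_mul]

end frac

end Pool.Agent.T9h31.NA
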